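import Mathlib

open Set Topology Filter

namespace Pool.Agent.H70

/-- The comb over `[a, b]` with hair of height `h x` at `x`. -/
def Comb (a b : ℝ) (h : ℝ → ℝ) : Set (ℝ × ℝ) :=
  {p | a ≤ p.1 ∧ p.1 ≤ b ∧ 0 ≤ p.2 ∧ p.2 ≤ h p.1}

/-- Hair functions: nonnegative, bounded by 2, and only finitely many values above any positive
threshold. -/
structure IsHair (h : ℝ → ℝ) : Prop where
  nonneg : ∀ x, 0 ≤ h x
  le_two : ∀ x, h x ≤ 2
  fin : ∀ ε > 0, {x | ε ≤ h x}.Finite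

theorem IsHair.eventually_lt {h : ℝ → ℝ} (H : IsHair h) (x₀ : ℝ) {ε : ℝ} (hε : 0 < ε) :
    ∀ᶠ x in 𝓝 x₀, x ≠ x₀ → h x < ε := by
  have h1 : ({x | ε ≤ h x} \ {x₀}).Finite := (H.fin ε hε).sdiff
  have h2 : ({x | ε ≤ h x} \ {x₀})ᶜ ∈ 𝓝 x₀ := h1.isClosed.compl_mem_nhds (by simp)
  filter_upwards [h2] with x hx hne
  by_contra hcon
  exact hx ⟨not_lt.mp hcon, hne⟩

theorem IsHair.usc {h : ℝ → ℝ} (H : IsHair h) : UpperSemicontinuous h := by
  intro x₀ y hy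
  have hy0 : 0 < y := lt_of_le_of_lt (H.nonneg x₀) hy
  filter_upwards [H.eventually_lt x₀ hy0] with x hx
  by_cases hxx : x = x₀
  · subst hxx; exact hy
  · exact hx hxx

theorem isClosed_comb {a b : ℝ} {h : ℝ → ℝ} (H : IsHair h) : IsClosed (Comb a b h) := by
  have h1 : IsClosed {p : ℝ × ℝ | p.2 ≤ h p.1} := H.usc.IsClosed_hypograph
  have h2 : IsClosed {p : ℝ × ℝ | a ≤ p.1} := isClosed_le continuous_const continuous_fst
  have h3 : IsClosed {p : ℝ × ℝ | p.1 ≤ b} := isClosed_le continuous_fst continuous_const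
  have h4 : IsClosed {p : ℝ × ℝ | 0 ≤ p.2} := isClosed_le continuous_const continuous_snd
  exact h2.inter (h3.inter (h4.inter h1))

theorem isCompact_comb {a b : ℝ} {h : ℝ → ℝ} (H : IsHair h) : IsCompact (Comb a b h) := by
  apply IsCompact.of_isClosed_subset (isCompact_Icc (a := a) (b := b) |>.prod
    (isCompact_Icc (a := (0:ℝ)) (b := 2))) (isClosed_comb H)
  rintro ⟨x, y⟩ ⟨h1, h2, h3, h4⟩
  exact ⟨⟨h1, h2⟩, ⟨h3, h4.trans (H.le_two x)⟩⟩

/-- A subset of the upper half plane which is closed under going down vertically and whose base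
is an interval is preconnected. -/
theorem preconn_down {A : Set (ℝ × ℝ)}
    (h1 : ∀ p ∈ A, 0 ≤ p.2 ∧ ∀ t, 0 ≤ t → t ≤ p.2 → (p.1, t) ∈ A)
    (h2 : ({x | (x, (0:ℝ)) ∈ A} : Set ℝ).OrdConnected) : IsPreconnected A := by
  apply isPreconnected_of_forall_pair
  intro p hp q hq
  obtain ⟨hp0, hpd⟩ := h1 p hp
  obtain ⟨hq0, hqd⟩ := h1 q hq
  refine ⟨(({p.1} ×ˢ Icc 0 p.2) ∪ (uIcc p.1 q.1 ×ˢ {0})) ∪ ({q.1} ×ˢ Icc 0 q.2), ?_, ?_, ?_, ?_⟩
  · rintro ⟨x, y⟩ ((⟨hx, hy⟩ | ⟨hx, hy⟩) | ⟨hx, hy⟩)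
    · simp only [mem_singleton_iff, mem_Icc] at hx hy
      rw [hx]; exact hpd y hy.1 hy.2
    · simp only [mem_singleton_iff] at hy
      rw [hy]
      exact h2.uIcc_subset (hpd 0 le_rfl hp0) (hqd 0 le_rfl hq0) hx
    · simp only [mem_singleton_iff, mem_Icc] at hx hy
      rw [hx]; exact hqd y hy.1 hy.2
  · left; left; exact ⟨rfl, hp0, le_rfl⟩
  · right; exact ⟨rfl, hq0, le_rfl⟩
  · apply IsPreconnected.union (q.1, (0:ℝ))
    · right; exact ⟨right_mem_uIcc, rfl⟩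
    · exact ⟨rfl, le_rfl, hq0⟩
    · apply IsPreconnected.union (p.1, (0:ℝ))
      · exact ⟨rfl, le_rfl, hp0⟩
      · exact ⟨left_mem_uIcc, rfl⟩
      · exact isPreconnected_singleton.prod isPreconnected_Icc
      · exact isPreconnected_uIcc.prod isPreconnected_singleton
    · exact isPreconnected_singleton.prod isPreconnected_Icc

theorem preconn_sub {C : Set (ℝ × ℝ)} {S : Set C} (h : IsPreconnected (Subtype.val '' S)) :
    IsPreconnected S :=
  IsInducing.subtypeVal.isPreconnected_image.mp h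

end Pool.Agent.H70
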