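import Pool.Agent.H70.Comb1

open Set Topology Filter

namespace Pool.Agent.H70

/-- Level `k` hair positions. -/
def B : ℕ → Set ℝ
  | 0 => {2/3}
  | k+1 => (fun x => x/3) '' B k ∪ (fun x => (x-2)/3) '' B k

theorem B_finite (k : ℕ) : (B k).Finite := by
  induction k with
  | zero => exact finite_singleton _
  | succ k ih => exact (ih.image _).union (ih.image _)

theorem B_sub (k : ℕ) : B k ⊆ Ioo (-1) 1 := by
  induction k with
  | zero => 
    intro x hx
    have : x = 2/3 := hx
    constructor <;> linarith
  | succ k ih =>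
    rintro x (⟨y, hy, rfl⟩ | ⟨y, hy, rfl⟩)
    · have := ih hy
      constructor <;> simp only <;> linarith [this.1, this.2]
    · have := ih hy
      constructor <;> simp only <;> linarith [this.1, this.2]

open Classical in
/-- The terms of the hair function. -/
noncomputable def term (x : ℝ) (k : ℕ) : ℝ := if x ∈ B k then (1/3:ℝ)^k else 0

theorem term_nonneg (x : ℝ) (k : ℕ) : 0 ≤ term x k := by
  unfold term; split_ifs <;> positivity

theorem term_le (x : ℝ) (k : ℕ) : term x k ≤ (1/3:ℝ)^k := by
  unfold term; split_ifs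
  · exact le_rfl
  · positivity

theorem summable_geo : Summable (fun k : ℕ => (1/3:ℝ)^k) :=
  summable_geometric_of_lt_one (by norm_num) (by norm_num)

theorem tsum_geo : ∑' k : ℕ, (1/3:ℝ)^k = 3/2 := by
  rw [tsum_geometric_of_lt_one (by norm_num) (by norm_num)]; norm_num

theorem summable_term (x : ℝ) : Summable (term x) :=
  Summable.of_nonneg_of_le (term_nonneg x) (term_le x) summable_geo

/-- The hair function. -/
noncomputable def hh (x : ℝ) : ℝ := ∑' k, term x k

theorem hh_nonneg (x : ℝ) : 0 ≤ hh x := tsum_nonneg (term_nonneg x)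

theorem hh_le (x : ℝ) : hh x ≤ 3/2 := by
  rw [← tsum_geo]
  exact Summable.tsum_le_tsum (term_le x) (summable_term x) summable_geo

theorem hh_eq_zero_of {x : ℝ} (hx : ∀ k, x ∉ B k) : hh x = 0 := by
  unfold hh
  have : term x = fun _ => 0 := by
    funext k; unfold term; simp [hx k]
  rw [this]; simp

theorem hh_pos_of {x : ℝ} {k : ℕ} (hx : x ∈ B k) : 0 < hh x := by
  unfold hh
  apply Summable.tsum_pos (summable_term x) (term_nonneg x) k
  unfold term; simp [hx]

theorem hh_eq_zero_of_not {x : ℝ} (hx : x ∉ Ioo (-1:ℝ) 1) : hh x = 0 :=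
  hh_eq_zero_of (fun k hk => hx (B_sub k hk))

theorem hh_third {x : ℝ} (hx : x ∈ Icc (-1:ℝ) 1) : hh (x/3) = hh x / 3 := by
  have h0 : term (x/3) 0 = 0 := by
    unfold term
    rw [if_neg]
    intro h
    have : x/3 = 2/3 := h
    linarith [hx.2]
  have hs : ∀ k, term (x/3) (k+1) = (1/3) * term x k := by
    intro k
    have hiff : x/3 ∈ B (k+1) ↔ x ∈ B k := by
      constructor
      · rintro (⟨y, hy, hxy⟩ | ⟨y, hy, hxy⟩)
        · have : y = x := by simp only at hxy; linarith
          rwa [← this]
        · exfalso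
          have := B_sub k hy
          simp only at hxy
          linarith [this.1, this.2, hx.1]
      · intro h
        exact Or.inl ⟨x, h, rfl⟩
    unfold term
    by_cases h : x ∈ B k
    · rw [if_pos h, if_pos (hiff.mpr h), pow_succ]; ring
    · rw [if_neg h, if_neg (fun h' => h (hiff.mp h'))]; ring
  unfold hh
  rw [(summable_term (x/3)).tsum_eq_zero_add, h0, zero_add]
  simp_rw [hs]
  rw [tsum_mul_left]; ring

theorem hh_left {x : ℝ} (hx : x ∈ Icc (-1:ℝ) 1) : hh ((x-2)/3) = hh x / 3 := by
  have h0 : term ((x-2)/3) 0 = 0 := by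
    unfold term
    rw [if_neg]
    intro h
    have : (x-2)/3 = 2/3 := h
    linarith [hx.2]
  have hs : ∀ k, term ((x-2)/3) (k+1) = (1/3) * term x k := by
    intro k
    have hiff : (x-2)/3 ∈ B (k+1) ↔ x ∈ B k := by
      constructor
      · rintro (⟨y, hy, hxy⟩ | ⟨y, hy, hxy⟩)
        · exfalso
          have := B_sub k hy
          simp only at hxy
          linarith [this.1, this.2, hx.2]
        · have : y = x := by simp only at hxy; linarith
          rwa [← this]
      · intro h
        exact Or.inr ⟨x, h, rfl⟩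
    unfold term
    by_cases h : x ∈ B k
    · rw [if_pos h, if_pos (hiff.mpr h), pow_succ]; ring
    · rw [if_neg h, if_neg (fun h' => h (hiff.mp h'))]; ring
  unfold hh
  rw [(summable_term ((x-2)/3)).tsum_eq_zero_add, h0, zero_add]
  simp_rw [hs]
  rw [tsum_mul_left]; ring

theorem hh_right {x : ℝ} (hx : 1/3 ≤ x) (hne : x ≠ 2/3) : hh x = 0 := by
  apply hh_eq_zero_of
  intro k hk
  cases k with
  | zero => exact hne hk
  | succ k =>
    rcases hk with ⟨y, hy, hxy⟩ | ⟨y, hy, hxy⟩
    · have := B_sub k hy
      simp only at hxy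
      linarith [this.1, this.2]
    · have := B_sub k hy
      simp only at hxy
      linarith [this.1, this.2]

theorem hh_two_thirds : 0 < hh (2/3) := hh_pos_of (k := 0) rfl

theorem isHair_hh : IsHair hh := by
  refine ⟨hh_nonneg, fun x => (hh_le x).trans (by norm_num), ?_⟩
  intro ε hε
  obtain ⟨K, hK⟩ := exists_pow_lt_of_lt_one (show (0:ℝ) < ε * (2/3) by positivity)
    (show (1/3:ℝ) < 1 by norm_num)
  apply ((finite_lt_nat K).biUnion (fun k _ => B_finite k)).subset
  intro x hx
  by_contra hcon
  simp only [mem_ofPred_eq, mem_iUnion, not_exists] at hcon hx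
  have h1 : hh x ≤ (1/3)^K * (3/2) := by
    unfold hh
    rw [← (summable_term x).sum_add_tsum_nat_add K]
    have h2 : ∑ i ∈ Finset.range K, term x i = 0 := by
      apply Finset.sum_eq_zero
      intro i hi
      unfold term
      rw [if_neg]
      exact hcon i (Finset.mem_range.mp hi)
    rw [h2, zero_add, ← tsum_geo, ← tsum_mul_left]
    apply Summable.tsum_le_tsum
    · intro i
      refine (term_le x (i+K)).trans ?_
      rw [pow_add]; linarith [mul_comm ((1/3:ℝ)^i) ((1/3:ℝ)^K)]
    · exact (summable_nat_add_iff K).mpr (summable_term x)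
    · exact summable_geo.mul_left _
  have : (1/3:ℝ)^K * (3/2) < ε := by linarith
  linarith

end Pool.Agent.H70
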