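import Pool.Agent.H70.Comb2

open Set Topology Filter

namespace Pool.Agent.H70

theorem hh_scale (k : ℕ) : ∀ x ∈ Icc (-1:ℝ) 1, hh ((1/3)^k * x) = (1/3)^k * hh x := by
  induction k with
  | zero => intro x _; simp
  | succ k ih =>
    intro x hx
    have h1 : (1/3:ℝ)^(k+1) * x = ((1/3)^k * x) / 3 := by rw [pow_succ]; ring
    have h2 : (1/3:ℝ)^k * x ∈ Icc (-1:ℝ) 1 := by
      have h3 : (0:ℝ) < (1/3)^k := by positivity
      have h4 : (1/3:ℝ)^k ≤ 1 := pow_le_one₀ (by norm_num) (by norm_num)
      constructor
      · nlinarith [hx.1, hx.2]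
      · nlinarith [hx.1, hx.2]
    rw [h1, hh_third h2, ih x hx, pow_succ]; ring

/-- `δ k = 3^{-k}`. -/
noncomputable def δ (k : ℕ) : ℝ := (1/3:ℝ)^k

theorem δ_pos (k : ℕ) : 0 < δ k := by unfold δ; positivity

theorem δ_le_one (k : ℕ) : δ k ≤ 1 := pow_le_one₀ (by norm_num) (by norm_num)

theorem δ_succ (k : ℕ) : δ (k+1) = δ k / 3 := by unfold δ; rw [pow_succ]; ring

theorem hh_scale' (k : ℕ) {x : ℝ} (h1 : - δ k ≤ x) (h2 : x ≤ δ k) :
    hh x = δ k * hh (x / δ k) := by
  have hd := δ_pos k
  have h3 : x / δ k ∈ Icc (-1:ℝ) 1 := by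
    constructor
    · rw [le_div_iff₀ hd]; linarith
    · rw [div_le_iff₀ hd]; linarith
  have h4 := hh_scale k _ h3
  have h5 : (1/3:ℝ)^k * (x / δ k) = x := by
    show δ k * (x / δ k) = x
    field_simp
  rw [h5] at h4
  exact h4

theorem hh_left_scale (k : ℕ) {x : ℝ} (h1 : - δ k ≤ x) (h2 : x ≤ - (δ k / 3)) :
    hh (3 * x + 2 * δ k) = 3 * hh x := by
  have hd := δ_pos k
  have hz : (3 * x + 2 * δ k) / δ k ∈ Icc (-1:ℝ) 1 := by
    constructor
    · rw [le_div_iff₀ hd]; linarith
    · rw [div_le_iff₀ hd]; linarith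
  rw [hh_scale' k (x := 3 * x + 2 * δ k) (by linarith) (by linarith)]
  rw [hh_scale' k (x := x) h1 (by linarith)]
  have h3 := hh_left hz
  have h4 : ((3 * x + 2 * δ k) / δ k - 2) / 3 = x / δ k := by
    field_simp
    ring
  rw [h4] at h3
  rw [h3]; ring

theorem hh_two_δ (k : ℕ) : 0 < hh (2 * δ (k+1)) := by
  have hd := δ_pos k
  rw [hh_scale' k (x := 2 * δ (k+1)) (by rw [δ_succ]; linarith) (by rw [δ_succ]; linarith)]
  have h4 : 2 * δ (k+1) / δ k = 2/3 := by
    rw [δ_succ]; field_simp
  rw [h4]
  exact mul_pos hd hh_two_thirds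

theorem hh_gap (k : ℕ) {x : ℝ} (h1 : δ (k+1) ≤ x) (h2 : x < 2 * δ (k+1)) : hh x = 0 := by
  have hd := δ_pos k
  rw [δ_succ] at h1 h2
  rw [hh_scale' k (x := x) (by linarith) (by linarith)]
  have h4 : hh (x / δ k) = 0 := by
    apply hh_right
    · rw [le_div_iff₀ hd]; linarith
    · intro h
      rw [div_eq_iff hd.ne'] at h
      linarith
  rw [h4]; simp

theorem hh_small (k : ℕ) {x : ℝ} (h1 : - δ k ≤ x) (h2 : x ≤ δ k) : hh x ≤ 2 * δ k := by
  rw [hh_scale' k h1 h2]
  have := hh_le (x / δ k)
  nlinarith [δ_pos k]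

theorem hh_zero : hh 0 = 0 := by
  have h := hh_third (x := 0) (by constructor <;> norm_num)
  simp only [zero_div] at h
  linarith

theorem hh_neg_small (k : ℕ) : 0 < hh (- (4/9) * δ k) := by
  have hd := δ_pos k
  rw [hh_scale' k (x := - (4/9) * δ k) (by linarith) (by linarith)]
  have h4 : - (4/9) * δ k / δ k = (2/3 - 2)/3 := by
    field_simp; norm_num
  rw [h4, hh_left (by constructor <;> norm_num)]
  have := hh_two_thirds
  positivity

theorem exists_δ_lt {ε : ℝ} (hε : 0 < ε) : ∃ k, δ k < ε :=
  exists_pow_lt_of_lt_one hε (by norm_num)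

/-- In `Y`, if there is no hair immediately to the right of `p` (and at `p`), then there is none
immediately to the left. -/
theorem extend_left : ∀ n : ℕ, ∀ p q : ℝ, -1 ≤ p → q ≤ 1 → p < q → (1/3:ℝ)^n < q - p →
    (∀ x ∈ Icc p q, hh x = 0) → ∃ p', -1 ≤ p' ∧ p' < p ∧ ∀ x ∈ Ioc p' p, hh x = 0 := by
  intro n
  induction n with
  | zero =>
    intro p q hp hq hpq hlen hz
    simp only [pow_zero] at hlen
    exfalso
    -- the interval has length > 1, so it contains 2/3 or (p < 0 and q > 0) ...
    have hp0 : p < 0 := by linarith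
    have hq0 : 0 < q := by linarith
    obtain ⟨k, hk⟩ := exists_δ_lt (show 0 < q/2 by linarith)
    have h1 := hh_two_δ k
    have h2 : 2 * δ (k+1) ∈ Icc p q := by
      have := δ_pos k
      rw [δ_succ]
      constructor <;> linarith
    rw [hz _ h2] at h1
    exact lt_irrefl _ h1
  | succ n ih =>
    intro p q hp hq hpq hlen hz
    rw [pow_succ] at hlen
    rcases lt_or_ge p (1/3) with h3 | h3
    · rcases lt_or_ge p (-(1/3)) with h4 | h4
      · -- left piece
        rcases le_or_gt q (-(1/3)) with h5 | h5
        · obtain ⟨p', h6, h7, h8⟩ := ih (3*p+2) (3*q+2) (by linarith) (by linarith) (by linarith)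
            (by linarith) (by
              intro x hx
              have hx1 : x ∈ Icc (-1:ℝ) 1 := ⟨by linarith [hx.1], by linarith [hx.2]⟩
              have h9 := hh_left hx1
              rw [hz ((x-2)/3) ⟨by linarith [hx.1], by linarith [hx.2]⟩] at h9
              linarith)
          refine ⟨(p'-2)/3, by linarith, by linarith, ?_⟩
          intro x hx
          have h9 := h8 (3*x+2) ⟨by linarith [hx.1], by linarith [hx.2]⟩
          have h10 := hh_left (x := 3*x+2) ⟨by linarith [hx.1, hx.2], by linarith [hx.2]⟩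
          rw [show (3*x+2-2)/3 = x by ring, h9] at h10
          linarith
        · -- q > -1/3
          have h6 : -(4/9) < p := by
            by_contra hcon
            have h7 := hz (-(4/9)) ⟨by linarith, by linarith⟩
            have h8 := hh_left (x := 2/3) (by constructor <;> norm_num)
            rw [show ((2:ℝ)/3-2)/3 = -(4/9) by norm_num, h7] at h8
            linarith [hh_two_thirds]
          refine ⟨-(4/9), by norm_num, h6, ?_⟩
          intro x hx
          have h10 := hh_left (x := 3*x+2) ⟨by linarith [hx.1, hx.2], by linarith [hx.2]⟩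
          rw [show (3*x+2-2)/3 = x by ring, hh_right (x := 3*x+2) (by linarith [hx.1])
            (by intro h; linarith [hx.1])] at h10
          linarith
      · -- middle piece
        rcases le_or_gt q (1/3) with h5 | h5
        · obtain ⟨p', h6, h7, h8⟩ := ih (3*p) (3*q) (by linarith) (by linarith) (by linarith)
            (by linarith) (by
              intro x hx
              have hx1 : x ∈ Icc (-1:ℝ) 1 := ⟨by linarith [hx.1], by linarith [hx.2]⟩
              have h9 := hh_third hx1
              rw [hz (x/3) ⟨by linarith [hx.1], by linarith [hx.2]⟩] at h9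
              linarith)
          refine ⟨p'/3, by linarith, by linarith, ?_⟩
          intro x hx
          have h9 := h8 (3*x) ⟨by linarith [hx.1], by linarith [hx.2]⟩
          have h10 := hh_third (x := 3*x) ⟨by linarith [hx.1, hx.2], by linarith [hx.2]⟩
          rw [show (3*x)/3 = x by ring, h9] at h10
          linarith
        · have h6 : 2/9 < p := by
            by_contra hcon
            have h7 := hz (2/9) ⟨by linarith, by linarith⟩
            have h8 := hh_third (x := 2/3) (by constructor <;> norm_num)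
            rw [show ((2:ℝ)/3)/3 = 2/9 by norm_num, h7] at h8
            linarith [hh_two_thirds]
          refine ⟨2/9, by norm_num, h6, ?_⟩
          intro x hx
          have h10 := hh_third (x := 3*x) ⟨by linarith [hx.1, hx.2], by linarith [hx.2]⟩
          rw [show (3*x)/3 = x by ring, hh_right (x := 3*x) (by linarith [hx.1])
            (by intro h; linarith [hx.1])] at h10
          linarith
    · -- p ≥ 1/3
      rcases lt_trichotomy p (2/3) with h4 | h4 | h4
      · -- 1/3 ≤ p < 2/3
        refine ⟨2/9, by norm_num, by linarith, ?_⟩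
        intro x hx
        rcases le_or_gt x (1/3) with h5 | h5
        · have h10 := hh_third (x := 3*x) ⟨by linarith [hx.1, hx.2], by linarith [hx.2]⟩
          rw [show (3*x)/3 = x by ring, hh_right (x := 3*x) (by linarith [hx.1])
            (by intro h; linarith [hx.1])] at h10
          linarith
        · exact hh_right h5.le (by intro h; linarith [hx.2])
      · exfalso
        have := hz p ⟨le_rfl, hpq.le⟩
        rw [h4] at this
        linarith [hh_two_thirds]
      · refine ⟨2/3, by norm_num, h4, ?_⟩
        intro x hx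
        exact hh_right (by linarith [hx.1]) (by intro h; linarith [hx.1])

end Pool.Agent.H70
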