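import Pool.Agent.H70.Comb3

open Set Topology Filter

namespace Pool.Agent.H70

/-- near a point of positive height the comb is just the hair. -/
theorem eventually_fst_eq {a b : ℝ} {h : ℝ → ℝ} (H : IsHair h) (p : Comb a b h)
    (hp : 0 < p.1.2) : ∀ᶠ q : Comb a b h in 𝓝 p, q.1.1 = p.1.1 := by
  have h1 : ∀ᶠ x in 𝓝 p.1.1, x ≠ p.1.1 → h x < p.1.2 / 2 :=
    H.eventually_lt _ (half_pos hp)
  have h2 : Tendsto (fun q : Comb a b h => q.1.1) (𝓝 p) (𝓝 p.1.1) :=
    (continuous_fst.comp continuous_subtype_val).tendsto p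
  have h3 : Tendsto (fun q : Comb a b h => q.1.2) (𝓝 p) (𝓝 p.1.2) :=
    (continuous_snd.comp continuous_subtype_val).tendsto p
  filter_upwards [h2.eventually h1, h3.eventually (lt_mem_nhds (show p.1.2 / 2 < p.1.2 by linarith))]
    with q hq1 hq2
  by_contra hne
  have h4 := hq1 hne
  have h5 := q.2.2.2.2
  linarith

/-- Continuity of maps `(x, y) ↦ (φ x, c x * y)` between combs. -/
theorem continuous_combMap {a b : ℝ} {h : ℝ → ℝ} (H : IsHair h) {φ c : ℝ → ℝ}
    (hφ : Continuous φ) (hc0 : ∀ x, 0 ≤ c x) (hc3 : ∀ x, c x ≤ 3) :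
    Continuous (fun p : Comb a b h => ((φ p.1.1, c p.1.1 * p.1.2) : ℝ × ℝ)) := by
  apply Continuous.prodMk (hφ.comp (continuous_fst.comp continuous_subtype_val))
  rw [continuous_iff_continuousAt]
  intro p
  have h3 : Tendsto (fun q : Comb a b h => q.1.2) (𝓝 p) (𝓝 p.1.2) :=
    (continuous_snd.comp continuous_subtype_val).tendsto p
  rcases p.2.2.2.1.eq_or_lt with hy | hy
  · -- height zero
    have h0 : c p.1.1 * p.1.2 = 0 := by rw [← hy]; ring
    show Tendsto _ _ (𝓝 (c p.1.1 * p.1.2))
    rw [h0]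
    rw [← hy] at h3
    apply squeeze_zero (g := fun q : Comb a b h => 3 * q.1.2)
    · intro q; exact mul_nonneg (hc0 _) q.2.2.2.1
    · intro q; exact mul_le_mul_of_nonneg_right (hc3 _) q.2.2.2.1
    · have := h3.const_mul 3
      simpa using this
  · have h4 : (fun q : Comb a b h => c q.1.1 * q.1.2) =ᶠ[𝓝 p]
        (fun q : Comb a b h => c p.1.1 * q.1.2) := by
      filter_upwards [eventually_fst_eq H p hy] with q hq
      rw [hq]
    exact (ContinuousAt.congr (h3.const_mul _) h4.symm)

theorem comb_connected {a b : ℝ} {h : ℝ → ℝ} (H : IsHair h) (hab : a ≤ b) :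
    ConnectedSpace (Comb a b h) := by
  have h1 : IsPreconnected (Comb a b h) := by
    apply preconn_down
    · rintro ⟨x, y⟩ ⟨h1, h2, h3, h4⟩
      exact ⟨h3, fun t ht1 ht2 => ⟨h1, h2, ht1, ht2.trans h4⟩⟩
    · constructor
      intro x hx y hy z hz
      exact ⟨hx.1.trans hz.1, hz.2.trans hy.2.1, le_rfl, H.nonneg _⟩
  have h2 : (Comb a b h).Nonempty := ⟨(a, 0), le_rfl, hab, le_rfl, H.nonneg _⟩
  exact isConnected_iff_connectedSpace.mp ⟨h2, h1⟩

/-- hairs are at countably many places, hence there are hairless points in each interval -/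
theorem exists_hairless {h : ℝ → ℝ} (H : IsHair h) {u v : ℝ} (huv : u < v) :
    ∃ x ∈ Ioo u v, h x = 0 := by
  have h1 : {x | h x ≠ 0}.Countable := by
    have h2 : {x | h x ≠ 0} ⊆ ⋃ n : ℕ, {x | 1/((n:ℝ)+1) ≤ h x} := by
      intro x hx
      have h3 : 0 < h x := lt_of_le_of_ne (H.nonneg x) (Ne.symm hx)
      obtain ⟨n, hn⟩ := exists_nat_one_div_lt h3
      exact mem_iUnion.mpr ⟨n, hn.le⟩
    exact (countable_iUnion (fun n => (H.fin _ (by positivity)).countable)).mono h2
  by_contra hcon
  push Not at hcon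
  have h4 : (Ioo u v).Countable := h1.mono (fun x hx => hcon x hx)
  exact (not_countable_iff.mpr (by
    have := Cardinal.mk_Ioo_real huv
    by_contra hc
    rw [not_uncountable_iff] at hc
    have h5 : Cardinal.mk (Ioo u v) ≤ Cardinal.aleph0 := Cardinal.mk_le_aleph0_iff.mpr hc
    rw [this] at h5
    exact absurd h5 (not_le.mpr Cardinal.aleph0_lt_continuum))) h4.to_subtype

/-- The basic small neighbourhoods in a comb: boundary has at most three points. -/
theorem comb_small_nhd {a b : ℝ} {h : ℝ → ℝ} (H : IsHair h) (p : Comb a b h)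
    (U : Set (Comb a b h)) (hU : IsOpen U) (hp : p ∈ U) :
    ∃ V : Set (Comb a b h), IsOpen V ∧ p ∈ V ∧ V ⊆ U ∧ (frontier V).encard ≤ 3 := by
  obtain ⟨⟨x₀, y₀⟩, hx1, hx2, hy1, hy2⟩ := p
  simp only at hx1 hx2 hy1 hy2
  obtain ⟨ε, hε, hball⟩ := Metric.isOpen_iff.mp hU _ hp
  -- choose e' small
  obtain ⟨d, hd0, hdε, hdy⟩ : ∃ d > 0, d < ε ∧ (0 < y₀ → 2 * d < y₀) := by
    by_cases hy : 0 < y₀
    · refine ⟨min (ε/2) (y₀/4), by positivity, ?_, ?_⟩
      · exact (min_le_left _ _).trans_lt (by linarith)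
      · intro _
        have := min_le_right (ε/2) (y₀/4)
        linarith
    · exact ⟨ε/2, by positivity, by linarith, fun h => absurd h hy⟩
  have h1 : ∀ᶠ x in 𝓝 x₀, x ≠ x₀ → h x < d := H.eventually_lt _ hd0
  obtain ⟨η, hη, hη2⟩ := Metric.eventually_nhds_iff.mp h1
  obtain ⟨u, hu, hu0⟩ := exists_hairless H (show x₀ - min (η/2) d < x₀ by
    have : 0 < min (η/2) d := by positivity
    linarith)
  obtain ⟨v, hv, hv0⟩ := exists_hairless H (show x₀ < x₀ + min (η/2) d by
    have : 0 < min (η/2) d := by positivity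
    linarith)
  have hm1 := min_le_left (η/2) d
  have hm2 := min_le_right (η/2) d
  have hsmall : ∀ x, u ≤ x → x ≤ v → x ≠ x₀ → h x < d := by
    intro x hxu hxv hne
    apply hη2 _ hne
    rw [Real.dist_eq, abs_lt]
    constructor <;> linarith [hu.1, hv.2]
  let V : Set (Comb a b h) := {q | u < q.1.1 ∧ q.1.1 < v ∧ y₀ - d < q.1.2 ∧ q.1.2 < y₀ + d}
  have cf : Continuous (fun q : Comb a b h => q.1.1) := continuous_fst.comp continuous_subtype_val
  have cs : Continuous (fun q : Comb a b h => q.1.2) := continuous_snd.comp continuous_subtype_val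
  have hVo : IsOpen V := by
    exact (isOpen_lt continuous_const cf).inter ((isOpen_lt cf continuous_const).inter
      ((isOpen_lt continuous_const cs).inter (isOpen_lt cs continuous_const)))
  have hVc : closure V ⊆ {q | u ≤ q.1.1 ∧ q.1.1 ≤ v ∧ y₀ - d ≤ q.1.2 ∧ q.1.2 ≤ y₀ + d} := by
    apply closure_minimal
    · rintro q ⟨h1, h2, h3, h4⟩
      exact ⟨h1.le, h2.le, h3.le, h4.le⟩
    · exact (isClosed_le continuous_const cf).inter ((isClosed_le cf continuous_const).inter
        ((isClosed_le continuous_const cs).inter (isClosed_le cs continuous_const)))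
  refine ⟨V, hVo, ⟨hu.2, hv.1, by simp only; linarith, by simp only; linarith⟩, ?_, ?_⟩
  · rintro ⟨⟨x, y⟩, hq⟩ ⟨h1, h2, h3, h4⟩
    apply hball
    simp only at h1 h2 h3 h4
    rw [Metric.mem_ball, Subtype.dist_eq, Prod.dist_eq, Real.dist_eq, Real.dist_eq]
    apply max_lt
    · rw [abs_lt]; constructor <;> simp only <;> linarith [hu.1, hv.2]
    · rw [abs_lt]; constructor <;> simp only <;> linarith
  · rcases hy1.eq_or_lt with hy | hy
    · -- y₀ = 0: frontier ⊆ {(u,0),(v,0),(x₀,d)}
      have hsub : Subtype.val '' (frontier V) ⊆ ({(u, 0), (v, 0), (x₀, d)} : Set (ℝ × ℝ)) := by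
        rintro _ ⟨⟨⟨x, y⟩, hc1, hc2, hc3, hc4⟩, hq, rfl⟩
        rw [hVo.frontier_eq] at hq
        obtain ⟨hq1, hq2⟩ := hq
        obtain ⟨h1, h2, h3, h4⟩ := hVc hq1
        simp only at h1 h2 h3 h4 hc1 hc2 hc3 hc4
        rcases h1.eq_or_lt with h1 | h1
        · left
          rw [← h1, hu0] at hc4
          exact Prod.ext h1.symm (le_antisymm hc4 hc3)
        rcases h2.eq_or_lt with h2 | h2
        · right; left
          rw [h2, hv0] at hc4
          exact Prod.ext h2 (le_antisymm hc4 hc3)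
        rcases h4.eq_or_lt with h4 | h4
        · right; right
          have h5 : x = x₀ := by
            by_contra hne
            have := hsmall x h1.le h2.le hne
            linarith
          exact Prod.ext h5 (by simp only; linarith)
        · exact absurd (show (⟨(x, y), hc1, hc2, hc3, hc4⟩ : Comb a b h) ∈ V from
            ⟨h1, h2, by simp only; linarith, h4⟩) hq2
      rw [← Subtype.val_injective.encard_image]
      refine (encard_le_encard hsub).trans ?_
      refine (encard_insert_le _ _).trans ?_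
      have := encard_insert_le ({(x₀, d)} : Set (ℝ × ℝ)) (v, 0)
      rw [encard_singleton] at this
      refine (add_le_add this le_rfl).trans ?_
      norm_num
    · have h2d := hdy hy
      have hsub : Subtype.val '' (frontier V) ⊆ ({(x₀, y₀ - d), (x₀, y₀ + d)} : Set (ℝ × ℝ)) := by
        rintro _ ⟨⟨⟨x, y⟩, hc1, hc2, hc3, hc4⟩, hq, rfl⟩
        rw [hVo.frontier_eq] at hq
        obtain ⟨hq1, hq2⟩ := hq
        obtain ⟨h1, h2, h3, h4⟩ := hVc hq1
        simp only at h1 h2 h3 h4 hc1 hc2 hc3 hc4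
        have h5 : x = x₀ := by
          by_contra hne
          have := hsmall x h1 h2 hne
          linarith
        subst h5
        rcases h3.eq_or_lt with h3 | h3
        · left; exact Prod.ext rfl h3.symm
        rcases h4.eq_or_lt with h4 | h4
        · right; exact Prod.ext rfl h4
        · exact absurd (show (⟨(x, y), hc1, hc2, hc3, hc4⟩ : Comb a b h) ∈ V from
            ⟨hu.2, hv.1, h3, h4⟩) hq2
      rw [← Subtype.val_injective.encard_image]
      refine (encard_le_encard hsub).trans ?_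
      refine (encard_insert_le _ _).trans ?_
      rw [encard_singleton]
      norm_num

end Pool.Agent.H70
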