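import Pool.Agent.H70.Comb4

open Set Topology Filter

namespace Pool.Agent.H70

/-- The base map of the refinable map: collapse `[0,1]`. -/
noncomputable def rho (x : ℝ) : ℝ := min x 0 + max (x - 1) 0

theorem rho_of_le {x : ℝ} (hx : x ≤ 0) : rho x = x := by
  unfold rho; rw [min_eq_left hx, max_eq_right (by linarith)]; ring

theorem rho_mid {x : ℝ} (h0 : 0 ≤ x) (h1 : x ≤ 1) : rho x = 0 := by
  unfold rho; rw [min_eq_right h0, max_eq_right (by linarith)]; ring

theorem rho_of_ge {x : ℝ} (hx : 1 ≤ x) : rho x = x - 1 := by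
  unfold rho; rw [min_eq_right (by linarith), max_eq_left (by linarith)]; ring

theorem rho_continuous : Continuous rho := by
  unfold rho
  exact (continuous_id.min continuous_const).add
    ((continuous_id.sub continuous_const).max continuous_const)

/-- Hair function of `X`. -/
noncomputable def hX (x : ℝ) : ℝ := hh (rho x)

theorem hX_of_le {x : ℝ} (hx : x ≤ 0) : hX x = hh x := by unfold hX; rw [rho_of_le hx]

theorem hX_mid {x : ℝ} (h0 : 0 ≤ x) (h1 : x ≤ 1) : hX x = 0 := by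
  unfold hX; rw [rho_mid h0 h1, hh_zero]

theorem hX_of_ge {x : ℝ} (hx : 1 ≤ x) : hX x = hh (x - 1) := by unfold hX; rw [rho_of_ge hx]

theorem isHair_hX : IsHair hX := by
  refine ⟨fun x => hh_nonneg _, fun x => (hh_le _).trans (by norm_num), ?_⟩
  intro ε hε
  have h1 : {x | ε ≤ hX x} ⊆ {x | ε ≤ hh x} ∪ (fun x => x + 1) '' {x | ε ≤ hh x} := by
    intro x hx
    simp only [mem_ofPred_eq] at hx
    rcases le_or_gt x 0 with h0 | h0
    · left; rwa [hX_of_le h0] at hx
    rcases le_or_gt x 1 with h1 | h1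
    · rw [hX_mid h0.le h1] at hx; linarith
    · right
      rw [hX_of_ge h1.le] at hx
      exact ⟨x - 1, hx, by ring⟩
  exact ((isHair_hh.fin ε hε).union ((isHair_hh.fin ε hε).image _)).subset h1

/-- The base map of the `ε`-maps. -/
noncomputable def phi (d x : ℝ) : ℝ :=
  min x (-d) + 3 * (max (-d) (min x (-(d/3))) + d) + d * max 0 (min x 1) + max (x - (1+2*d)) 0

/-- The vertical factor. -/
noncomputable def cc (d x : ℝ) : ℝ :=
  if x < -d then 1 else if x < -(d/3) then 3 else if x < 1+2*d then 0 else 1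

theorem phi_continuous (d : ℝ) : Continuous (phi d) := by
  unfold phi
  exact (((continuous_id.min continuous_const).add (continuous_const.mul
    ((continuous_const.max (continuous_id.min continuous_const)).add continuous_const))).add
    (continuous_const.mul (continuous_const.max (continuous_id.min continuous_const)))).add
    ((continuous_id.sub continuous_const).max continuous_const)

theorem phi_monotone {d : ℝ} (hd : 0 < d) : Monotone (phi d) := by
  intro x y hxy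
  unfold phi
  have h1 : min x (-d) ≤ min y (-d) := min_le_min_right _ hxy
  have h2 : max (-d) (min x (-(d/3))) ≤ max (-d) (min y (-(d/3))) :=
    max_le_max_left _ (min_le_min_right _ hxy)
  have h3 : max 0 (min x 1) ≤ max 0 (min y 1) := max_le_max_left _ (min_le_min_right _ hxy)
  have h4 : max (x - (1+2*d)) 0 ≤ max (y - (1+2*d)) 0 := max_le_max_right _ (by linarith)
  have h5 : d * max 0 (min x 1) ≤ d * max 0 (min y 1) := mul_le_mul_of_nonneg_left h3 hd.le
  linarith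

theorem phi1 {d x : ℝ} (hd : 0 < d) (hx : x ≤ -d) : phi d x = x := by
  unfold phi
  rw [min_eq_left hx, min_eq_left (show x ≤ -(d/3) by linarith), max_eq_left hx,
    min_eq_left (show x ≤ 1 by linarith), max_eq_left (show x ≤ 0 by linarith),
    max_eq_right (show x - (1+2*d) ≤ 0 by linarith)]
  ring

theorem phi2 {d x : ℝ} (hd : 0 < d) (h1 : -d ≤ x) (h2 : x ≤ -(d/3)) :
    phi d x = 3 * x + 2 * d := by
  unfold phi
  rw [min_eq_right h1, min_eq_left h2, max_eq_right h1,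
    min_eq_left (show x ≤ 1 by linarith), max_eq_left (show x ≤ 0 by linarith),
    max_eq_right (show x - (1+2*d) ≤ 0 by linarith)]
  ring

theorem phi3 {d x : ℝ} (hd : 0 < d) (h1 : -(d/3) ≤ x) (h2 : x ≤ 0) : phi d x = d := by
  unfold phi
  rw [min_eq_right (show -d ≤ x by linarith), min_eq_right h1,
    max_eq_right (show -d ≤ -(d/3) by linarith),
    min_eq_left (show x ≤ 1 by linarith), max_eq_left (show x ≤ 0 by linarith),
    max_eq_right (show x - (1+2*d) ≤ 0 by linarith)]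
  ring

theorem phi4 {d x : ℝ} (hd : 0 < d) (h1 : 0 ≤ x) (h2 : x ≤ 1) : phi d x = d + d * x := by
  unfold phi
  rw [min_eq_right (show -d ≤ x by linarith), min_eq_right (show -(d/3) ≤ x by linarith),
    max_eq_right (show -d ≤ -(d/3) by linarith),
    min_eq_left (show x ≤ 1 by linarith), max_eq_right h1,
    max_eq_right (show x - (1+2*d) ≤ 0 by linarith)]
  ring

theorem phi5 {d x : ℝ} (hd : 0 < d) (h1 : 1 ≤ x) (h2 : x ≤ 1 + 2 * d) : phi d x = 2 * d := by
  unfold phi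
  rw [min_eq_right (show -d ≤ x by linarith), min_eq_right (show -(d/3) ≤ x by linarith),
    max_eq_right (show -d ≤ -(d/3) by linarith),
    min_eq_right h1, max_eq_right (show (0:ℝ) ≤ 1 by norm_num),
    max_eq_right (show x - (1+2*d) ≤ 0 by linarith)]
  ring

theorem phi6 {d x : ℝ} (hd : 0 < d) (h1 : 1 + 2 * d ≤ x) : phi d x = x - 1 := by
  unfold phi
  rw [min_eq_right (show -d ≤ x by linarith), min_eq_right (show -(d/3) ≤ x by linarith),
    max_eq_right (show -d ≤ -(d/3) by linarith),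
    min_eq_right (show 1 ≤ x by linarith), max_eq_right (show (0:ℝ) ≤ 1 by norm_num),
    max_eq_left (show 0 ≤ x - (1+2*d) by linarith)]
  ring

theorem phi_cases {d : ℝ} (hd : 0 < d) (x : ℝ) :
    (x < -d ∧ phi d x = x ∧ cc d x = 1) ∨
    (-d ≤ x ∧ x < -(d/3) ∧ phi d x = 3 * x + 2 * d ∧ cc d x = 3) ∨
    (-(d/3) ≤ x ∧ x ≤ 0 ∧ phi d x = d ∧ cc d x = 0) ∨
    (0 < x ∧ x < 1 ∧ phi d x = d + d * x ∧ cc d x = 0) ∨
    (1 ≤ x ∧ x < 1 + 2 * d ∧ phi d x = 2 * d ∧ cc d x = 0) ∨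
    (1 + 2 * d ≤ x ∧ phi d x = x - 1 ∧ cc d x = 1) := by
  rcases lt_or_ge x (-d) with h1 | h1
  · left; exact ⟨h1, phi1 hd h1.le, by unfold cc; rw [if_pos h1]⟩
  rcases lt_or_ge x (-(d/3)) with h2 | h2
  · right; left
    exact ⟨h1, h2, phi2 hd h1 h2.le, by unfold cc; rw [if_neg (not_lt.mpr h1), if_pos h2]⟩
  rcases le_or_gt x 0 with h3 | h3
  · right; right; left
    exact ⟨h2, h3, phi3 hd h2 h3, by
      unfold cc; rw [if_neg (not_lt.mpr h1), if_neg (not_lt.mpr h2), if_pos (by linarith)]⟩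
  rcases lt_or_ge x 1 with h4 | h4
  · right; right; right; left
    exact ⟨h3, h4, phi4 hd h3.le h4.le, by
      unfold cc; rw [if_neg (not_lt.mpr h1), if_neg (not_lt.mpr h2), if_pos (by linarith)]⟩
  rcases lt_or_ge x (1 + 2 * d) with h5 | h5
  · right; right; right; right; left
    exact ⟨h4, h5, phi5 hd h4 h5.le, by
      unfold cc; rw [if_neg (not_lt.mpr h1), if_neg (not_lt.mpr h2), if_pos h5]⟩
  · right; right; right; right; right
    exact ⟨h5, phi6 hd h5, by
      unfold cc; rw [if_neg (not_lt.mpr h1), if_neg (not_lt.mpr h2), if_neg (not_lt.mpr h5)]⟩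

theorem cc_nonneg (d x : ℝ) : 0 ≤ cc d x := by unfold cc; split_ifs <;> norm_num
theorem cc_le (d x : ℝ) : cc d x ≤ 3 := by unfold cc; split_ifs <;> norm_num

theorem phi_eq {d : ℝ} (hd : 0 < d) (hd1 : d ≤ 1/3) {x y : ℝ} (hxy : x < y)
    (h : phi d x = phi d y) :
    (-(d/3) ≤ x ∧ y ≤ 0) ∨ (1 ≤ x ∧ y ≤ 1 + 2 * d) := by
  rcases phi_cases hd x with ⟨h1, h2, -⟩ | ⟨h1, h1', h2, -⟩ | ⟨h1, h1', h2, -⟩ | ⟨h1, h1', h2, -⟩ |
    ⟨h1, h1', h2, -⟩ | ⟨h1, h2, -⟩ <;>
  rcases phi_cases hd y with ⟨h3, h4, -⟩ | ⟨h3, h3', h4, -⟩ | ⟨h3, h3', h4, -⟩ | ⟨h3, h3', h4, -⟩ |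
    ⟨h3, h3', h4, -⟩ | ⟨h3, h4, -⟩ <;>
  rw [h2, h4] at h <;>
  first
    | (exfalso; linarith)
    | (exfalso; nlinarith)
    | (left; constructor <;> linarith)
    | (right; constructor <;> linarith)

theorem phi_mem {d : ℝ} (hd : 0 < d) (hd1 : d ≤ 1/3) {x : ℝ} (h1 : -1 ≤ x) (h2 : x ≤ 2) :
    -1 ≤ phi d x ∧ phi d x ≤ 1 := by
  rcases phi_cases hd x with ⟨h1, h2, -⟩ | ⟨h1, h1', h2, -⟩ | ⟨h1, h1', h2, -⟩ | ⟨h1, h1', h2, -⟩ |
    ⟨h1, h1', h2, -⟩ | ⟨h1, h2, -⟩ <;> rw [h2] <;> constructor <;> nlinarith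

theorem δ_succ_le (k : ℕ) : δ (k+1) ≤ 1/3 := by
  rw [δ_succ]; have := δ_le_one k; linarith

theorem phi_height (k : ℕ) (x : ℝ) : cc (δ (k+1)) x * hX x ≤ hh (phi (δ (k+1)) x) := by
  have hd := δ_pos (k+1)
  rcases phi_cases hd x with ⟨h1, h2, h3⟩ | ⟨h1, h1', h2, h3⟩ | ⟨h1, h1', h2, h3⟩ |
    ⟨h1, h1', h2, h3⟩ | ⟨h1, h1', h2, h3⟩ | ⟨h1, h2, h3⟩
  · rw [h2, h3, hX_of_le (by linarith)]; linarith
  · rw [h2, h3, hX_of_le (by linarith), hh_left_scale (k+1) h1 h1'.le]
  · rw [h3, zero_mul]; exact hh_nonneg _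
  · rw [h3, zero_mul]; exact hh_nonneg _
  · rw [h3, zero_mul]; exact hh_nonneg _
  · rw [h2, h3, hX_of_ge (by linarith)]; linarith

theorem hX_small (k : ℕ) {x : ℝ} (h1 : - δ (k+1) ≤ x) (h2 : x ≤ 1 + 2 * δ (k+1)) :
    hX x ≤ 6 * δ (k+1) := by
  have hd := δ_pos (k+1)
  rcases le_or_gt x 0 with h3 | h3
  · rw [hX_of_le h3]
    have := hh_small (k+1) h1 (by linarith)
    linarith
  rcases le_or_gt x 1 with h4 | h4
  · rw [hX_mid h3.le h4]; linarith
  · rw [hX_of_ge h4.le]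
    have hs := δ_succ k
    have hk := δ_pos k
    have := hh_small k (x := x - 1) (by linarith) (by linarith)
    linarith

theorem phi_surj (k : ℕ) {x' y' : ℝ} (h1 : -1 ≤ x') (h2 : x' ≤ 1) (h3 : 0 ≤ y')
    (h4 : y' ≤ hh x') : ∃ x y, -1 ≤ x ∧ x ≤ 2 ∧ 0 ≤ y ∧ y ≤ hX x ∧
      phi (δ (k+1)) x = x' ∧ cc (δ (k+1)) x * y = y' := by
  have hd := δ_pos (k+1)
  have hd1 := δ_succ_le k
  rcases lt_or_ge x' (-δ (k+1)) with h5 | h5
  · refine ⟨x', y', h1, by linarith, h3, by rwa [hX_of_le (by linarith)], phi1 hd h5.le, ?_⟩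
    unfold cc; rw [if_pos h5, one_mul]
  rcases lt_or_ge x' (δ (k+1)) with h6 | h6
  · refine ⟨(x' - 2 * δ (k+1))/3, y'/3, by linarith, by linarith, by linarith, ?_, ?_, ?_⟩
    · rw [hX_of_le (by linarith)]
      have h7 := hh_left_scale (k+1) (x := (x' - 2 * δ (k+1))/3) (by linarith) (by linarith)
      rw [show 3 * ((x' - 2 * δ (k+1))/3) + 2 * δ (k+1) = x' by ring] at h7
      linarith
    · rw [phi2 hd (by linarith) (by linarith)]; ring
    · unfold cc
      rw [if_neg (by linarith), if_pos (by linarith)]; ring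
  rcases lt_or_ge x' (2 * δ (k+1)) with h7 | h7
  · have h8 := hh_gap k h6 h7
    have h9 : y' = 0 := by linarith
    have h10 : 0 ≤ (x' - δ (k+1)) / δ (k+1) := by apply div_nonneg <;> linarith
    have h11 : (x' - δ (k+1)) / δ (k+1) ≤ 1 := by rw [div_le_one hd]; linarith
    refine ⟨(x' - δ (k+1)) / δ (k+1), 0, by linarith, by linarith, le_rfl,
      isHair_hX.nonneg _, ?_, ?_⟩
    · rw [phi4 hd h10 h11]; field_simp; ring
    · rw [h9]; ring
  · refine ⟨x' + 1, y', by linarith, by linarith, h3, ?_, ?_, ?_⟩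
    · rw [hX_of_ge (by linarith)]; simpa using h4
    · rw [phi6 hd (by linarith)]; ring
    · unfold cc
      rw [if_neg (by linarith), if_neg (by linarith), if_neg (by linarith)]; ring

/-- distance estimate to `rho` -/
theorem phi_close (k : ℕ) {x y : ℝ} (h0 : 0 ≤ y) (h1 : y ≤ hX x) :
    |phi (δ (k+1)) x - rho x| ≤ 12 * δ (k+1) ∧ |cc (δ (k+1)) x * y - y| ≤ 12 * δ (k+1) := by
  have hd := δ_pos (k+1)
  rcases phi_cases hd x with ⟨h1, h2, h3⟩ | ⟨h1, h1', h2, h3⟩ | ⟨h1, h1', h2, h3⟩ |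
    ⟨h1, h1', h2, h3⟩ | ⟨h1, h1', h2, h3⟩ | ⟨h1, h2, h3⟩
  · rw [h2, h3, rho_of_le (by linarith)]; constructor <;> rw [abs_le] <;> constructor <;> linarith
  · have hs := hX_small k h1 (by linarith)
    rw [h2, h3, rho_of_le (by linarith)]; constructor <;> rw [abs_le] <;> constructor <;> linarith
  · have hs := hX_small k (x := x) (by linarith) (by linarith)
    rw [h2, h3, rho_of_le (by linarith)]; constructor <;> rw [abs_le] <;> constructor <;> linarith
  · have hs := hX_small k (x := x) (by linarith) (by linarith)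
    rw [h2, h3, rho_mid (by linarith) (by linarith)]
    constructor <;> rw [abs_le] <;> constructor <;> nlinarith
  · have hs := hX_small k (x := x) (by linarith) (by linarith)
    rw [h2, h3, rho_of_ge (by linarith)]; constructor <;> rw [abs_le] <;> constructor <;> linarith
  · rw [h2, h3, rho_of_ge (by linarith)]; constructor <;> rw [abs_le] <;> constructor <;> linarith

/-- fibres are small -/
theorem fibre_small_aux (k : ℕ) {x₁ y₁ x₂ y₂ : ℝ} (h1 : 0 ≤ y₁) (h1' : y₁ ≤ hX x₁)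
    (h2 : 0 ≤ y₂) (h2' : y₂ ≤ hX x₂) (hlt : x₁ < x₂)
    (hφ : phi (δ (k+1)) x₁ = phi (δ (k+1)) x₂)
    (hc : cc (δ (k+1)) x₁ * y₁ = cc (δ (k+1)) x₂ * y₂) :
    |x₁ - x₂| ≤ 12 * δ (k+1) ∧ |y₁ - y₂| ≤ 12 * δ (k+1) := by
  have hd := δ_pos (k+1)
  rcases phi_eq hd (δ_succ_le k) hlt hφ with ⟨h3, h4⟩ | ⟨h3, h4⟩
  · have hs1 := hX_small k (x := x₁) (by linarith) (by linarith)
    have hs2 := hX_small k (x := x₂) (by linarith) (by linarith)
    constructor <;> rw [abs_le] <;> constructor <;> linarith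
  · have hs1 := hX_small k (x := x₁) (by linarith) (by linarith)
    have hs2 := hX_small k (x := x₂) (by linarith) (by linarith)
    constructor <;> rw [abs_le] <;> constructor <;> linarith

theorem cc_inj {d : ℝ} (hd : 0 < d) (hd1 : d ≤ 1/3) {x y : ℝ} (hxy : x < y)
    (h : phi d x = phi d y) : cc d x = 0 := by
  rcases phi_eq hd hd1 hxy h with ⟨h3, h4⟩ | ⟨h3, h4⟩
  · unfold cc; rw [if_neg (by linarith), if_neg (by linarith), if_pos (by linarith)]
  · unfold cc; rw [if_neg (by linarith), if_neg (by linarith), if_pos (by linarith)]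

end Pool.Agent.H70
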