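import Pool.Agent.H70.Comb5

open Set Topology Filter

namespace Pool.Agent.H70

/-! ### A topological invariant -/

/-- `z` cuts the space into at least three pieces. -/
def IsBranch {Z : Type} [TopologicalSpace Z] (z : Z) : Prop :=
  ∃ U V W : Set Z, IsOpen U ∧ IsOpen V ∧ IsOpen W ∧ U.Nonempty ∧ V.Nonempty ∧ W.Nonempty ∧
    Disjoint U V ∧ Disjoint U W ∧ Disjoint V W ∧ U ∪ V ∪ W = {z}ᶜ

theorem not_isBranch_of {Z : Type} [TopologicalSpace Z] {z : Z} {P Q : Set Z}
    (hP : IsPreconnected P) (hQ : IsPreconnected Q) (h : {z}ᶜ = P ∪ Q) : ¬ IsBranch z := by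
  rintro ⟨U, V, W, hU, hV, hW, ⟨u, hu⟩, ⟨v, hv⟩, ⟨w, hw⟩, hUV, hUW, hVW, hc⟩
  have key : ∀ R : Set Z, IsPreconnected R → R ⊆ {z}ᶜ → R ⊆ U ∨ R ⊆ V ∨ R ⊆ W := by
    intro R hR hRz
    rw [← hc] at hRz
    rcases hR.subset_or_subset hU (hV.union hW) (by
      rw [disjoint_union_right]; exact ⟨hUV, hUW⟩) (by rwa [← union_assoc]) with h1 | h1
    · left; exact h1
    · right
      exact hR.subset_or_subset hV hW hVW h1
  have hu' : u ∈ P ∪ Q := by rw [← h, ← hc]; left; left; exact hu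
  have hv' : v ∈ P ∪ Q := by rw [← h, ← hc]; left; right; exact hv
  have hw' : w ∈ P ∪ Q := by rw [← h, ← hc]; right; exact hw
  have d1 : ∀ x, x ∈ U → x ∈ V → False := fun x a b => (disjoint_left.mp hUV a b)
  have d2 : ∀ x, x ∈ U → x ∈ W → False := fun x a b => (disjoint_left.mp hUW a b)
  have d3 : ∀ x, x ∈ V → x ∈ W → False := fun x a b => (disjoint_left.mp hVW a b)
  rcases key P hP (h ▸ subset_union_left) with h1 | h1 | h1 <;>
  rcases key Q hQ (h ▸ subset_union_right) with h2 | h2 | h2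
  · rcases hv' with h3 | h3
    · exact d1 v (h1 h3) hv
    · exact d1 v (h2 h3) hv
  · rcases hw' with h3 | h3
    · exact d2 w (h1 h3) hw
    · exact d3 w (h2 h3) hw
  · rcases hv' with h3 | h3
    · exact d1 v (h1 h3) hv
    · exact d3 v hv (h2 h3)
  · rcases hw' with h3 | h3
    · exact d3 w (h1 h3) hw
    · exact d2 w (h2 h3) hw
  · rcases hu' with h3 | h3
    · exact d1 u hu (h1 h3)
    · exact d1 u hu (h2 h3)
  · rcases hu' with h3 | h3
    · exact d1 u hu (h1 h3)
    · exact d2 u hu (h2 h3)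
  · rcases hv' with h3 | h3
    · exact d3 v hv (h1 h3)
    · exact d1 v (h2 h3) hv
  · rcases hu' with h3 | h3
    · exact d2 u hu (h1 h3)
    · exact d1 u hu (h2 h3)
  · rcases hu' with h3 | h3
    · exact d2 u hu (h1 h3)
    · exact d2 u hu (h2 h3)

theorem IsBranch.map {Z W : Type} [TopologicalSpace Z] [TopologicalSpace W] (e : Z ≃ₜ W) {z : Z}
    (h : IsBranch z) : IsBranch (e z) := by
  obtain ⟨U, V, W, hU, hV, hW, nU, nV, nW, hUV, hUW, hVW, hc⟩ := h
  refine ⟨e '' U, e '' V, e '' W, e.isOpenMap _ hU, e.isOpenMap _ hV, e.isOpenMap _ hW,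
    nU.image _, nV.image _, nW.image _, ?_, ?_, ?_, ?_⟩
  · exact (disjoint_image_iff e.injective).mpr hUV
  · exact (disjoint_image_iff e.injective).mpr hUW
  · exact (disjoint_image_iff e.injective).mpr hVW
  · rw [← image_union, ← image_union, hc, image_compl_eq e.bijective, image_singleton]

/-- There is a nondegenerate closed set which is a component of the set of non-branch points. -/
def HasFree (Z : Type) [TopologicalSpace Z] : Prop :=
  ∃ K : Set Z, IsClosed K ∧ K.Nontrivial ∧ IsPreconnected K ∧ (∀ z ∈ K, ¬ IsBranch z) ∧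
    ∀ K' : Set Z, K ⊆ K' → IsPreconnected K' → (∀ z ∈ K', ¬ IsBranch z) → K' ⊆ K

theorem HasFree.map {Z W : Type} [TopologicalSpace Z] [TopologicalSpace W] (e : Z ≃ₜ W)
    (h : HasFree Z) : HasFree W := by
  obtain ⟨K, hK, hn, hp, hb, hm⟩ := h
  refine ⟨e '' K, e.isClosedMap _ hK, hn.image e.injective, hp.image _ e.continuous.continuousOn,
    ?_, ?_⟩
  · rintro _ ⟨z, hz, rfl⟩ hbr
    have := hbr.map e.symm
    rw [e.symm_apply_apply] at this
    exact hb z hz this
  · intro K' h1 h2 h3 w hw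
    have h4 : e.symm '' K' ⊆ K := by
      apply hm
      · intro z hz
        exact ⟨e z, h1 ⟨z, hz, rfl⟩, e.symm_apply_apply z⟩
      · exact h2.image _ e.symm.continuous.continuousOn
      · rintro _ ⟨w, hw, rfl⟩ hbr
        have := hbr.map e
        rw [e.apply_symm_apply] at this
        exact h3 w hw this
    exact ⟨e.symm w, h4 ⟨w, hw, rfl⟩, e.apply_symm_apply w⟩

/-! ### Branch points of combs -/

theorem comb_cf {a b : ℝ} {h : ℝ → ℝ} : Continuous (fun q : Comb a b h => q.1.1) :=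
  continuous_fst.comp continuous_subtype_val

theorem comb_cs {a b : ℝ} {h : ℝ → ℝ} : Continuous (fun q : Comb a b h => q.1.2) :=
  continuous_snd.comp continuous_subtype_val

theorem hair_open {a b : ℝ} {h : ℝ → ℝ} (H : IsHair h) (x : ℝ) :
    IsOpen {q : Comb a b h | q.1.1 = x ∧ 0 < q.1.2} := by
  rw [isOpen_iff_mem_nhds]
  intro q hq
  filter_upwards [eventually_fst_eq H q hq.2, comb_cs.tendsto q |>.eventually (lt_mem_nhds hq.2)]
    with q' h1 h2
  exact ⟨h1.trans hq.1, h2⟩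

theorem down_sub {a b : ℝ} {h : ℝ → ℝ} (S : Set (Comb a b h))
    (h1 : ∀ p ∈ S, ∀ t (ht0 : 0 ≤ t) (ht : t ≤ p.1.2),
      (⟨(p.1.1, t), p.2.1, p.2.2.1, ht0, ht.trans p.2.2.2.2⟩ : Comb a b h) ∈ S)
    (h2 : ∀ p ∈ S, ∀ q ∈ S, ∀ x, p.1.1 ≤ x → x ≤ q.1.1 → ∃ s ∈ S, s.1 = (x, 0)) :
    IsPreconnected S := by
  apply preconn_sub
  apply preconn_down
  · rintro _ ⟨p, hp, rfl⟩
    refine ⟨p.2.2.2.1, fun t ht0 ht => ?_⟩
    exact ⟨_, h1 p hp t ht0 ht, rfl⟩
  · constructor
    rintro x ⟨p, hp, hpx⟩ y ⟨q, hq, hqy⟩ z hz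
    obtain ⟨s, hs, hs2⟩ := h2 p hp q hq z (by rw [hpx]; exact hz.1) (by rw [hqy]; exact hz.2)
    exact ⟨s, hs, hs2⟩

theorem not_branch_zero {a b : ℝ} {h : ℝ → ℝ} (H : IsHair h) (p : Comb a b h)
    (hp : h p.1.1 = 0) : ¬ IsBranch p := by
  apply not_isBranch_of (P := {q | q.1.1 < p.1.1}) (Q := {q | p.1.1 < q.1.1})
  · apply down_sub
    · intro q hq t ht0 ht; exact hq
    · intro q hq r hr x hx1 hx2
      exact ⟨⟨(x, 0), q.2.1.trans hx1, hx2.trans r.2.2.1, le_rfl, H.nonneg _⟩,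
        lt_of_le_of_lt hx2 hr, rfl⟩
  · apply down_sub
    · intro q hq t ht0 ht; exact hq
    · intro q hq r hr x hx1 hx2
      exact ⟨⟨(x, 0), q.2.1.trans hx1, hx2.trans r.2.2.1, le_rfl, H.nonneg _⟩,
        lt_of_lt_of_le hq hx1, rfl⟩
  · ext q
    simp only [mem_compl_iff, mem_singleton_iff, mem_union, mem_ofPred_eq]
    rw [← ne_iff_lt_or_gt]
    constructor
    · intro hne heq
      apply hne
      apply Subtype.ext
      apply Prod.ext heq
      have h1 := q.2.2.2.2
      rw [heq, hp] at h1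
      have h2 := p.2.2.2.2
      rw [hp] at h2
      rw [le_antisymm h1 q.2.2.2.1, le_antisymm h2 p.2.2.2.1]
    · intro hne heq
      exact hne (by rw [heq])

theorem not_branch_hair {a b : ℝ} {h : ℝ → ℝ} (H : IsHair h) (p : Comb a b h)
    (hp : 0 < p.1.2) : ¬ IsBranch p := by
  apply not_isBranch_of (P := {q | ¬ (q.1.1 = p.1.1 ∧ p.1.2 ≤ q.1.2)})
    (Q := {q | q.1.1 = p.1.1 ∧ p.1.2 < q.1.2})
  · apply down_sub
    · intro q hq t ht0 ht hcon
      exact hq ⟨hcon.1, hcon.2.trans ht⟩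
    · intro q hq r hr x hx1 hx2
      refine ⟨⟨(x, 0), q.2.1.trans hx1, hx2.trans r.2.2.1, le_rfl, H.nonneg _⟩, ?_, rfl⟩
      rintro ⟨-, h2⟩
      simp only at h2
      linarith
  · apply preconn_sub
    have : Subtype.val '' {q : Comb a b h | q.1.1 = p.1.1 ∧ p.1.2 < q.1.2} =
        {p.1.1} ×ˢ Ioc p.1.2 (h p.1.1) := by
      ext ⟨x, y⟩
      constructor
      · rintro ⟨q, ⟨h1, h2⟩, h3⟩
        rw [← h3]
        exact ⟨h1, h2, by rw [← h1]; exact q.2.2.2.2⟩
      · rintro ⟨h1, h2, h3⟩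
        simp only [mem_singleton_iff] at h1 h2 h3
        exact ⟨⟨(x, y), by rw [h1]; exact p.2.1, by rw [h1]; exact p.2.2.1,
          (hp.trans h2).le, by rw [h1]; exact h3⟩, ⟨h1, h2⟩, rfl⟩
    rw [this]
    exact isPreconnected_singleton.prod isPreconnected_Ioc
  · ext q
    simp only [mem_compl_iff, mem_singleton_iff, mem_union, mem_ofPred_eq]
    constructor
    · intro hne
      by_cases h1 : q.1.1 = p.1.1 ∧ p.1.2 ≤ q.1.2
      · right
        refine ⟨h1.1, lt_of_le_of_ne h1.2 ?_⟩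
        intro h2
        exact hne (Subtype.ext (Prod.ext h1.1 h2.symm))
      · left; exact h1
    · rintro (h1 | h1) heq
      · exact h1 ⟨by rw [heq], by rw [heq]⟩
      · rw [heq] at h1; exact lt_irrefl _ h1.2

theorem branch_of {a b : ℝ} {h : ℝ → ℝ} (H : IsHair h) (p : Comb a b h)
    (h0 : p.1.2 = 0) (hp : 0 < h p.1.1) (ha : a < p.1.1) (hb : p.1.1 < b) : IsBranch p := by
  refine ⟨{q | q.1.1 < p.1.1}, {q | p.1.1 < q.1.1}, {q | q.1.1 = p.1.1 ∧ 0 < q.1.2},
    isOpen_lt comb_cf continuous_const, isOpen_lt continuous_const comb_cf, hair_open H _,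
    ⟨⟨(a, 0), le_rfl, (ha.trans hb).le, le_rfl, H.nonneg _⟩, ha⟩,
    ⟨⟨(b, 0), (ha.trans hb).le, le_rfl, le_rfl, H.nonneg _⟩, hb⟩,
    ⟨⟨(p.1.1, h p.1.1), ha.le, hb.le, hp.le, le_rfl⟩, rfl, hp⟩, ?_, ?_, ?_, ?_⟩
  · rw [disjoint_left]; intro q h1 h2
    exact lt_asymm (show q.1.1 < p.1.1 from h1) h2
  · rw [disjoint_left]; intro q h1 h2
    exact absurd h2.1 (ne_of_lt h1)
  · rw [disjoint_left]; intro q h1 h2
    exact absurd h2.1 (ne_of_gt h1)
  · ext q
    simp only [mem_compl_iff, mem_singleton_iff, mem_union, mem_ofPred_eq]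
    constructor
    · rintro ((h1 | h1) | h1) heq
      · rw [heq] at h1; exact lt_irrefl _ h1
      · rw [heq] at h1; exact lt_irrefl _ h1
      · rw [heq, h0] at h1; exact lt_irrefl _ h1.2
    · intro hne
      rcases lt_trichotomy q.1.1 p.1.1 with h1 | h1 | h1
      · left; left; exact h1
      · right
        refine ⟨h1, lt_of_le_of_ne q.2.2.2.1 ?_⟩
        intro h2
        exact hne (Subtype.ext (Prod.ext h1 (by rw [← h2, h0])))
      · left; right; exact h1

/-- a preconnected set passing from left to right of a hair contains the base point. -/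
theorem mem_of_cross {a b : ℝ} {h : ℝ → ℝ} (H : IsHair h) {K : Set (Comb a b h)}
    (hK : IsPreconnected K) {p q : Comb a b h} (hp : p ∈ K) (hq : q ∈ K) {x : ℝ}
    (h1 : p.1.1 < x) (h2 : x < q.1.1) : ∃ s ∈ K, s.1 = (x, 0) := by
  by_contra hcon
  push Not at hcon
  have hsub : K ⊆ {r | r.1.1 < x} ∪ ({r | x < r.1.1} ∪ {r | r.1.1 = x ∧ 0 < r.1.2}) := by
    intro r hr
    rcases lt_trichotomy r.1.1 x with h3 | h3 | h3
    · left; exact h3
    · right; right
      refine ⟨h3, lt_of_le_of_ne r.2.2.2.1 ?_⟩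
      intro h4
      exact hcon r hr (Prod.ext h3 h4.symm)
    · right; left; exact h3
  rcases hK.subset_or_subset (isOpen_lt comb_cf continuous_const)
    ((isOpen_lt continuous_const comb_cf).union (hair_open H x)) (by
      rw [disjoint_left]
      rintro r h3 (h4 | h4)
      · exact lt_asymm (show r.1.1 < x from h3) h4
      · exact absurd h4.1 (ne_of_lt h3)) hsub with h3 | h3
  · exact lt_asymm h2 (h3 hq)
  · rcases h3 hp with h4 | h4
    · exact lt_asymm h1 h4
    · exact absurd h4.1 (ne_of_lt h1)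

/-! ### The two spaces -/

/-- The space `X`. -/
abbrev XX : Type := Comb (-1) 2 hX
/-- The space `Y`. -/
abbrev YY : Type := Comb (-1) 1 hh

theorem hasFree_XX : HasFree XX := by
  refine ⟨{q | 0 ≤ q.1.1 ∧ q.1.1 ≤ 1}, ?_, ?_, ?_, ?_, ?_⟩
  · exact (isClosed_le continuous_const comb_cf).inter (isClosed_le comb_cf continuous_const)
  · refine ⟨⟨(0, 0), by norm_num, by norm_num, le_rfl, isHair_hX.nonneg _⟩, ⟨le_rfl, by norm_num⟩,
      ⟨(1, 0), by norm_num, by norm_num, le_rfl, isHair_hX.nonneg _⟩, ⟨by norm_num, le_rfl⟩, ?_⟩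
    intro hcon
    have := congrArg (fun q : XX => q.1.1) hcon
    simp at this
  · apply down_sub
    · intro q hq t ht0 ht; exact hq
    · intro q hq r hr x hx1 hx2
      exact ⟨⟨(x, 0), q.2.1.trans hx1, hx2.trans r.2.2.1, le_rfl, isHair_hX.nonneg _⟩,
        ⟨hq.1.trans hx1, hx2.trans hr.2⟩, rfl⟩
  · intro z hz
    exact not_branch_zero isHair_hX z (hX_mid hz.1 hz.2)
  · intro K' hK hp hb z hz
    have m0 : (⟨(0, 0), by norm_num, by norm_num, le_rfl, isHair_hX.nonneg _⟩ : XX) ∈ K' :=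
      hK ⟨le_rfl, by norm_num⟩
    have m1 : (⟨(1, 0), by norm_num, by norm_num, le_rfl, isHair_hX.nonneg _⟩ : XX) ∈ K' :=
      hK ⟨by norm_num, le_rfl⟩
    constructor
    · by_contra hcon
      push Not at hcon
      obtain ⟨k, hk⟩ := exists_δ_lt (show 0 < -z.1.1 by linarith)
      have hd := δ_pos k
      obtain ⟨s, hs, hs2⟩ := mem_of_cross isHair_hX hp hz m0 (x := -(4/9) * δ k)
        (by linarith) (by simp only; linarith)
      apply hb s hs
      apply branch_of isHair_hX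
      · rw [hs2]
      · rw [hs2]
        simp only
        rw [hX_of_le (by linarith)]
        exact hh_neg_small k
      · rw [hs2]
        simp only
        have := z.2.1
        linarith
      · rw [hs2]
        simp only
        linarith
    · by_contra hcon
      push Not at hcon
      obtain ⟨k, hk⟩ := exists_δ_lt (show 0 < z.1.1 - 1 by linarith)
      have hd := δ_pos k
      have hd' := δ_succ k
      obtain ⟨s, hs, hs2⟩ := mem_of_cross isHair_hX hp m1 hz (x := 1 + 2 * δ (k+1))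
        (by simp only; linarith) (by linarith)
      apply hb s hs
      apply branch_of isHair_hX
      · rw [hs2]
      · rw [hs2]
        simp only
        rw [hX_of_ge (by linarith)]
        simpa using hh_two_δ k
      · rw [hs2]
        simp only
        linarith
      · rw [hs2]
        simp only
        have := z.2.2.1
        linarith

theorem hh_pos_mem {x : ℝ} (hx : 0 < hh x) : -1 < x ∧ x < 1 := by
  by_contra hcon
  rw [hh_eq_zero_of_not hcon] at hx
  exact lt_irrefl _ hx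

instance : CompactSpace YY := isCompact_iff_compactSpace.mp (isCompact_comb isHair_hh)
instance : CompactSpace XX := isCompact_iff_compactSpace.mp (isCompact_comb isHair_hX)

theorem not_hasFree_YY : ¬ HasFree YY := by
  rintro ⟨K, hK, hn, hp, hb, hm⟩
  have hKc : IsCompact K := hK.isCompact
  obtain ⟨z₁, hz₁, hmin⟩ := hKc.exists_isMinOn hn.nonempty comb_cf.continuousOn
  by_cases hall : ∀ z ∈ K, z.1.1 = z₁.1.1
  · -- all on one vertical line
    obtain ⟨u, hu, v, hv, huv⟩ := hn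
    have hpos : ∃ w ∈ K, 0 < w.1.2 := by
      by_contra hcon
      push Not at hcon
      apply huv
      apply Subtype.ext
      apply Prod.ext
      · rw [hall u hu, hall v hv]
      · rw [le_antisymm (hcon u hu) u.2.2.2.1, le_antisymm (hcon v hv) v.2.2.2.1]
    obtain ⟨w, hw, hw2⟩ := hpos
    have hh1 : 0 < hh w.1.1 := lt_of_lt_of_le hw2 w.2.2.2.2
    have hI := hh_pos_mem hh1
    -- the whole hair without base
    have hsub : {q : YY | q.1.1 = w.1.1 ∧ 0 < q.1.2} ⊆ K := by
      apply hm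
      · intro q hq
        refine ⟨by rw [hall q hq, hall w hw], lt_of_le_of_ne q.2.2.2.1 ?_⟩
        intro h0
        apply hb q hq
        have : q.1.1 = w.1.1 := by rw [hall q hq, hall w hw]
        apply branch_of isHair_hh q h0.symm
        · rw [this]; exact hh1
        · rw [this]; exact hI.1
        · rw [this]; exact hI.2
      · apply preconn_sub
        have : Subtype.val '' {q : YY | q.1.1 = w.1.1 ∧ 0 < q.1.2} =
            {w.1.1} ×ˢ Ioc 0 (hh w.1.1) := by
          ext ⟨x, y⟩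
          constructor
          · rintro ⟨q, ⟨h1, h2⟩, h3⟩
            rw [← h3]
            exact ⟨h1, h2, by rw [← h1]; exact q.2.2.2.2⟩
          · rintro ⟨h1, h2, h3⟩
            simp only [mem_singleton_iff] at h1 h2 h3
            exact ⟨⟨(x, y), by rw [h1]; exact hI.1.le, by rw [h1]; exact hI.2.le,
              h2.le, by rw [h1]; exact h3⟩, ⟨h1, h2⟩, rfl⟩
        rw [this]
        exact isPreconnected_singleton.prod isPreconnected_Ioc
      · intro q hq
        exact not_branch_hair isHair_hh q hq.2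
    -- the base point is in the closure
    have hbase : (⟨(w.1.1, 0), hI.1.le, hI.2.le, le_rfl, hh_nonneg _⟩ : YY) ∈ K := by
      have h1 : closure {q : YY | q.1.1 = w.1.1 ∧ 0 < q.1.2} ⊆ K := closure_minimal hsub hK
      apply h1
      rw [Metric.mem_closure_iff]
      intro ε hε
      have hmpos : 0 < min (ε/2) (hh w.1.1) := by positivity
      refine ⟨⟨(w.1.1, min (ε/2) (hh w.1.1)), hI.1.le, hI.2.le, hmpos.le, min_le_right _ _⟩,
        ⟨rfl, hmpos⟩, ?_⟩
      rw [Subtype.dist_eq, Prod.dist_eq, Real.dist_eq, Real.dist_eq]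
      simp only [sub_self, abs_zero, zero_sub, abs_neg]
      rw [abs_of_pos hmpos]
      apply max_lt hε
      have := min_le_left (ε/2) (hh w.1.1)
      linarith
    exact hb _ hbase (branch_of isHair_hh _ rfl hh1 hI.1 hI.2)
  · push Not at hall
    obtain ⟨z₂, hz₂, hne⟩ := hall
    have hlt : z₁.1.1 < z₂.1.1 := lt_of_le_of_ne (hmin hz₂) (Ne.symm hne)
    have hmem : ∀ x, z₁.1.1 < x → x < z₂.1.1 → ∃ s ∈ K, s.1 = (x, 0) := fun x h1 h2 =>
      mem_of_cross isHair_hh hp hz₁ hz₂ h1 h2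
    have hmem' : ∀ x, z₁.1.1 ≤ x → x ≤ z₂.1.1 → ∃ s ∈ K, s.1 = (x, 0) := by
      intro x hx1 hx2
      have h1 : Ioo z₁.1.1 z₂.1.1 ⊆ {x | ∃ s ∈ K, s.1 = (x, 0)} := fun x hx => hmem x hx.1 hx.2
      have h2 : IsClosed {x : ℝ | ∃ s ∈ K, s.1 = (x, 0)} := by
        have h3 : IsClosed (Subtype.val '' K : Set (ℝ × ℝ)) :=
          (hKc.image continuous_subtype_val).isClosed
        have h4 : {x : ℝ | ∃ s ∈ K, s.1 = (x, 0)} = (fun x : ℝ => (x, (0:ℝ))) ⁻¹'
          (Subtype.val '' K : Set (ℝ × ℝ)) := by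
          ext x; rfl
        rw [h4]
        exact h3.preimage (by fun_prop)
      have h3 := closure_minimal h1 h2
      rw [closure_Ioo hlt.ne] at h3
      exact h3 ⟨hx1, hx2⟩
    have hzero : ∀ x ∈ Icc z₁.1.1 z₂.1.1, hh x = 0 := by
      intro x hx
      by_contra hne
      have hpos : 0 < hh x := lt_of_le_of_ne (hh_nonneg x) (Ne.symm hne)
      obtain ⟨s, hs, hs2⟩ := hmem' x hx.1 hx.2
      have hI := hh_pos_mem hpos
      apply hb s hs
      apply branch_of isHair_hh s
      · rw [hs2]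
      · rw [hs2]; exact hpos
      · rw [hs2]; exact hI.1
      · rw [hs2]; exact hI.2
    obtain ⟨n, hn'⟩ := exists_δ_lt (show 0 < z₂.1.1 - z₁.1.1 by linarith)
    obtain ⟨p', hp1, hp2, hp3⟩ := extend_left n z₁.1.1 z₂.1.1 z₁.2.1 z₂.2.2.1 hlt hn' hzero
    have hz : ∀ x, p' < x → x ≤ z₂.1.1 → hh x = 0 := by
      intro x h1 h2
      rcases le_or_gt x z₁.1.1 with h3 | h3
      · exact hp3 x ⟨h1, h3⟩
      · exact hzero x ⟨h3.le, h2⟩
    have hsub : K ∪ {q | p' < q.1.1 ∧ q.1.1 ≤ z₂.1.1} ⊆ K := by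
      apply hm _ subset_union_left
      · apply IsPreconnected.union z₂ hz₂ _ hp
        · apply down_sub
          · intro q hq t ht0 ht; exact hq
          · intro q hq r hr x hx1 hx2
            exact ⟨⟨(x, 0), q.2.1.trans hx1, hx2.trans r.2.2.1, le_rfl, hh_nonneg _⟩,
              ⟨lt_of_lt_of_le hq.1 hx1, hx2.trans hr.2⟩, rfl⟩
        · exact ⟨hp2.trans hlt, le_rfl⟩
      · rintro z (hz' | hz')
        · exact hb z hz'
        · exact not_branch_zero isHair_hh z (hz _ hz'.1 hz'.2)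
    have hin : (⟨((p' + z₁.1.1)/2, 0), by linarith, by
        have := z₁.2.2.1
        linarith, le_rfl, hh_nonneg _⟩ : YY) ∈ K :=
      hsub (Or.inr ⟨by simp only; linarith, by simp only; linarith⟩)
    have := hmin hin
    simp only [mem_ofPred_eq] at this
    linarith

theorem not_homeo : IsEmpty (XX ≃ₜ YY) :=
  ⟨fun e => not_hasFree_YY (hasFree_XX.map e)⟩

end Pool.Agent.H70
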