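import Mathlib

open MvPolynomial

namespace Pool.Agent.H70.Tame

variable {k : ℕ}

/-- The polynomial ring in `k + 2` variables. -/
abbrev S (k : ℕ) := MvPolynomial (Fin (k+2)) ℂ
/-- The free module of rank `k + 2`. -/
abbrev F (k : ℕ) := Fin (k+2) → S k
/-- Points of the spectrum. -/
abbrev Pt (k : ℕ) := PrimeSpectrum (S k)
/-- Residue fields. -/
abbrev K (P : Pt k) := P.asIdeal.ResidueField

/-- Evaluation of vectors at a point. -/
noncomputable def ev (P : Pt k) : F k →ₗ[S k] (Fin (k+2) → K P) :=
  (Algebra.linearMap (S k) (K P)).compLeft (Fin (k+2))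

theorem ev_apply (P : Pt k) (v : F k) (j : Fin (k+2)) :
    ev P v j = algebraMap (S k) (K P) (v j) := rfl

theorem ev_smul (P : Pt k) (a : S k) (v : F k) :
    ev P (a • v) = algebraMap (S k) (K P) a • ev P v := by
  rw [map_smul, algebraMap_smul]

/-- The generic point and the points of codimension one. -/
def Good (P : Pt k) : Prop := P.asIdeal = ⊥ ∨ ∃ p, Prime p ∧ P.asIdeal = Ideal.span {p}

/-- Linear independence at `P`. -/
def Indep (P : Pt k) {s : ℕ} (τ : Fin s → F k) : Prop :=
  LinearIndependent (K P) (fun i => ev P (τ i))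

theorem ev_bot_eq_zero {v : F k} (h : ev (⊥ : Pt k) v = 0) : v = 0 := by
  funext j
  have h1 := congrFun h j
  rw [ev_apply] at h1
  simp only [Pi.zero_apply] at h1
  rw [Ideal.algebraMap_residueField_eq_zero] at h1
  simpa using h1

theorem linearIndependent_of_bot {s : ℕ} {τ : Fin s → F k} (h : Indep (⊥ : Pt k) τ) :
    LinearIndependent (S k) τ := by
  rw [Fintype.linearIndependent_iff]
  intro g hg i
  have h1 : ∑ i, algebraMap (S k) (K (⊥ : Pt k)) (g i) • ev ⊥ (τ i) = 0 := by
    have := congrArg (ev (⊥ : Pt k)) hg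
    rw [map_sum, map_zero] at this
    rw [← this]
    exact Finset.sum_congr rfl (fun i _ => (ev_smul _ _ _).symm)
  have h2 := (Fintype.linearIndependent_iff.mp h) _ h1 i
  rw [Ideal.algebraMap_residueField_eq_zero] at h2
  simpa using h2

/-- a scaled left inverse -/
theorem exists_scaled_inverse {s : ℕ} {τ : Fin s → F k} (h : LinearIndependent (S k) τ) :
    ∃ (a : S k) (B : Fin s → Fin (k+2) → S k), a ≠ 0 ∧
      ∀ i l, ∑ j, B i j * τ l j = if i = l then a else 0 := by
  classical
  let Q := FractionRing (S k)
  let E : F k →ₗ[S k] (Fin (k+2) → Q) := (Algebra.linearMap (S k) Q).compLeft (Fin (k+2))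
  have hE : ∀ v j, E v j = algebraMap (S k) Q (v j) := fun v j => rfl
  have hEinj : LinearMap.ker E = ⊥ := by
    rw [LinearMap.ker_eq_bot]
    intro v w hvw
    funext j
    have := congrFun hvw j
    rw [hE, hE] at this
    exact IsFractionRing.injective (S k) Q this
  have h1 : LinearIndependent (S k) (fun i => E (τ i)) := h.map' E hEinj
  have h2 : LinearIndependent Q (fun i => E (τ i)) :=
    (LinearIndependent.iff_fractionRing (S k) Q).mp h1
  let g : (Fin s → Q) →ₗ[Q] (Fin (k+2) → Q) := Fintype.linearCombination Q (fun i => E (τ i))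
  have hg : LinearMap.ker g = ⊥ := by
    rw [LinearMap.ker_eq_bot]
    exact linearIndependent_iff_injective_fintypeLinearCombination.mp h2
  obtain ⟨ψ, hψ⟩ := g.exists_leftInverse_of_injective hg
  have hψ2 : ∀ l, ψ (E (τ l)) = Pi.single l 1 := by
    intro l
    have := congrArg (fun f => f (Pi.single l 1)) hψ
    simp only [LinearMap.coe_comp, Function.comp_apply, LinearMap.id_coe, id_eq] at this
    rw [← this]
    congr 1
    simp [g, Fintype.linearCombination_apply_single]
  -- clear denominators
  obtain ⟨b, hb⟩ := IsLocalization.exist_integer_multiples_of_finite (nonZeroDivisors (S k))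
    (fun p : Fin s × Fin (k+2) => ψ (Pi.single p.2 1) p.1)
  choose B' hB' using hb
  refine ⟨b, fun i j => B' (i, j), nonZeroDivisors.ne_zero b.2, ?_⟩
  intro i l
  apply IsFractionRing.injective (S k) Q
  rw [map_sum]
  have h3 : E (τ l) = ∑ j, (algebraMap (S k) Q (τ l j)) • (Pi.single j (1:Q) : Fin (k+2) → Q) := by
    funext j
    rw [hE, Finset.sum_apply, Finset.sum_eq_single j]
    · simp [Algebra.algebraMap_eq_smul_one]
    · intro i _ hi
      rw [Pi.smul_apply, Pi.single_eq_of_ne (Ne.symm hi), smul_zero]
    · intro hj; exact absurd (Finset.mem_univ j) hj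
  have h4 : ψ (E (τ l)) i = ∑ j, (algebraMap (S k) Q (τ l j)) * ψ (Pi.single j 1) i := by
    rw [h3, map_sum, Finset.sum_apply]
    exact Finset.sum_congr rfl (fun j _ => by rw [map_smul]; rfl)
  rw [hψ2] at h4
  have h5 : ∀ j, algebraMap (S k) Q (B' (i, j) * τ l j) =
      algebraMap (S k) Q b * ((algebraMap (S k) Q (τ l j)) * ψ (Pi.single j 1) i) := by
    intro j
    have := hB' (i, j)
    simp only at this
    rw [map_mul, this, Algebra.smul_def]
    ring
  simp_rw [h5]
  rw [← Finset.mul_sum, ← h4]
  by_cases hil : i = l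
  · subst hil; simp
  · rw [if_neg hil, Pi.single_eq_of_ne hil]; simp

/-- For a family independent at the generic point, only finitely many good points are bad. -/
theorem finite_bad {s : ℕ} {τ : Fin s → F k} (h : Indep (⊥ : Pt k) τ) :
    {P : Pt k | Good P ∧ ¬ Indep P τ}.Finite := by
  classical
  obtain ⟨a, B, ha, hB⟩ := exists_scaled_inverse (linearIndependent_of_bot h)
  have h1 : ∀ P : Pt k, a ∉ P.asIdeal → Indep P τ := by
    intro P hP
    unfold Indep
    rw [Fintype.linearIndependent_iff]
    intro g hg i
    have h2 : ∑ l, g l * (algebraMap (S k) (K P)) (∑ j, B i j * τ l j) = 0 := by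
      have h3 : ∀ j, ∑ l, g l * algebraMap (S k) (K P) (τ l j) = 0 := by
        intro j
        have := congrFun hg j
        simpa [Finset.sum_apply, ev_apply] using this
      calc ∑ l, g l * (algebraMap (S k) (K P)) (∑ j, B i j * τ l j)
          = ∑ l, ∑ j, algebraMap (S k) (K P) (B i j) * (g l * algebraMap (S k) (K P) (τ l j)) := by
            apply Finset.sum_congr rfl
            intro l _
            rw [map_sum, Finset.mul_sum]
            apply Finset.sum_congr rfl
            intro j _
            rw [map_mul]; ring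
        _ = ∑ j, algebraMap (S k) (K P) (B i j) * ∑ l, (g l * algebraMap (S k) (K P) (τ l j)) := by
            rw [Finset.sum_comm]
            apply Finset.sum_congr rfl
            intro j _
            rw [Finset.mul_sum]
        _ = 0 := by simp [h3]
    simp_rw [hB] at h2
    have h4 : ∑ l, g l * algebraMap (S k) (K P) (if i = l then a else 0) =
        g i * algebraMap (S k) (K P) a := by
      rw [Finset.sum_eq_single i]
      · simp
      · intro l _ hl
        rw [if_neg (Ne.symm hl)]; simp
      · intro hi; exact absurd (Finset.mem_univ i) hi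
    rw [h4] at h2
    rcases mul_eq_zero.mp h2 with h5 | h5
    · exact h5
    · exfalso
      apply hP
      rwa [Ideal.algebraMap_residueField_eq_zero] at h5
  have h2 : {P : Pt k | Good P ∧ ¬ Indep P τ} ⊆
      {P : Pt k | ∃ q ∈ (UniqueFactorizationMonoid.factors a), P.asIdeal = Ideal.span {q}} := by
    rintro P ⟨hP, hI⟩
    have haP : a ∈ P.asIdeal := by
      by_contra hcon
      exact hI (h1 P hcon)
    rcases hP with hP | ⟨p, hp, hP⟩
    · rw [hP] at haP
      exact absurd (by simpa using haP) ha
    · rw [hP, Ideal.mem_span_singleton] at haP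
      obtain ⟨q, hq, hpq⟩ := UniqueFactorizationMonoid.exists_mem_factors_of_dvd ha hp.irreducible haP
      exact ⟨q, hq, by rw [hP]; exact Ideal.span_singleton_eq_span_singleton.mpr hpq⟩
  apply Set.Finite.subset _ h2
  have h3 : {P : Pt k | ∃ q ∈ (UniqueFactorizationMonoid.factors a), P.asIdeal = Ideal.span {q}} ⊆
      PrimeSpectrum.asIdeal ⁻¹' ((fun q => Ideal.span {q}) ''
        {q | q ∈ UniqueFactorizationMonoid.factors a}) := by
    rintro P ⟨q, hq, hP⟩
    exact ⟨q, hq, hP.symm⟩
  apply Set.Finite.subset _ h3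
  apply Set.Finite.preimage
  · intro P _ Q _ hPQ
    exact PrimeSpectrum.ext hPQ
  · apply Set.Finite.image
    exact (Multiset.finite_toSet _)

end Pool.Agent.H70.Tame
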