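import Pool.Agent.H70.Tame1

open MvPolynomial

namespace Pool.Agent.H70.Tame

variable {k : ℕ}

/-- The span at `P` of a family. -/
noncomputable def T (P : Pt k) {s : ℕ} (τ : Fin s → F k) : Submodule (K P) (Fin (k+2) → K P) :=
  Submodule.span (K P) (Set.range (fun i => ev P (τ i)))

theorem indep_snoc (P : Pt k) {s : ℕ} (τ : Fin s → F k) (x : F k) :
    Indep P (Fin.snoc τ x : Fin (s+1) → F k) ↔ Indep P τ ∧ ev P x ∉ T P τ := by
  unfold Indep T
  have h : (fun i => ev P ((Fin.snoc τ x : Fin (s+1) → F k) i)) =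
      (Fin.snoc (fun i => ev P (τ i)) (ev P x) : Fin (s+1) → (Fin (k+2) → K P)) := by
    have := Fin.comp_snoc (ev P) τ x
    exact this
  rw [h, linearIndependent_finSnoc]

theorem finrank_T_le (P : Pt k) {s : ℕ} (τ : Fin s → F k) : Module.finrank (K P) (T P τ) ≤ s := by
  have := finrank_range_le_card (R := K P) (fun i => ev P (τ i))
  unfold T
  simpa [Set.finrank] using this

/-- coefficient vectors, homogeneous of prescribed degrees -/
def W {M : ℕ} (e : Fin M → ℕ) : Submodule ℂ (Fin M → S k) where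
  carrier := {b | ∀ i, (b i).IsHomogeneous (e i)}
  add_mem' := fun ha hb i => (ha i).add (hb i)
  zero_mem' := fun i => isHomogeneous_zero _ _ _
  smul_mem' := fun c b hb i => by
    have h1 : (c • b) i = C c * b i := by rw [Pi.smul_apply, smul_eq_C_mul]
    rw [h1]
    exact (hb i).C_mul c

/-- linear combinations -/
noncomputable def L {M : ℕ} (u : Fin M → F k) (b : Fin M → S k) : F k := ∑ i, b i • u i

theorem L_add {M : ℕ} (u : Fin M → F k) (b c : Fin M → S k) : L u (b + c) = L u b + L u c := by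
  unfold L
  rw [← Finset.sum_add_distrib]
  exact Finset.sum_congr rfl (fun i _ => by rw [Pi.add_apply, add_smul])

theorem L_smul {M : ℕ} (u : Fin M → F k) (c : ℂ) (b : Fin M → S k) :
    L u (c • b) = (C c : S k) • L u b := by
  unfold L
  rw [Finset.smul_sum]
  exact Finset.sum_congr rfl (fun i _ => by
    rw [Pi.smul_apply, smul_eq_C_mul, smul_smul])

/-- coefficient vectors whose combination lies in a given subspace at `P` -/
def WU {M : ℕ} (u : Fin M → F k) (e : Fin M → ℕ) (P : Pt k)
    (U : Submodule (K P) (Fin (k+2) → K P)) : Submodule ℂ (W (k := k) e) where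
  carrier := {b | ev P (L u b.1) ∈ U}
  add_mem' := fun {a b} ha hb => by
    simp only [Set.mem_ofPred_eq] at ha hb ⊢
    rw [Submodule.coe_add, L_add, map_add]
    exact U.add_mem ha hb
  zero_mem' := by
    simp only [Set.mem_ofPred_eq]
    have : L u (0 : Fin M → S k) = 0 := by unfold L; simp
    rw [Submodule.coe_zero, this, map_zero]
    exact U.zero_mem
  smul_mem' := fun c b hb => by
    simp only [Set.mem_ofPred_eq] at hb ⊢
    rw [Submodule.coe_smul, L_smul, ev_smul]
    exact U.smul_mem _ hb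

theorem mem_WU {M : ℕ} {u : Fin M → F k} {e : Fin M → ℕ} {P : Pt k}
    {U : Submodule (K P) (Fin (k+2) → K P)} {b : W (k := k) e} :
    b ∈ WU u e P U ↔ ev P (L u b.1) ∈ U := Iff.rfl

theorem exists_X_notMem {P : Pt k} (hP : Good P) : ∃ j : Fin (k+2), (X j : S k) ∉ P.asIdeal := by
  by_contra hcon
  push Not at hcon
  rcases hP with hP | ⟨p, hp, hP⟩
  · have := hcon 0
    rw [hP] at this
    rw [Ideal.mem_bot] at this
    exact X_ne_zero (R := ℂ) (0 : Fin (k+2)) this
  · have h0 := hcon 0
    have h1 := hcon 1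
    rw [hP, Ideal.mem_span_singleton] at h0 h1
    have h2 : Associated p (X 0) :=
      hp.irreducible.associated_of_dvd (X_prime (R := ℂ) (i := (0 : Fin (k+2)))).irreducible h0
    have h3 : (X 0 : S k) ∣ X 1 := h2.symm.dvd.trans h1
    rw [X_dvd_X] at h3
    exact absurd h3 (by simp)

theorem WU_ne_top {M : ℕ} {u : Fin M → F k} (e : Fin M → ℕ) {P : Pt k} (hP : Good P)
    {U : Submodule (K P) (Fin (k+2) → K P)} (h : ∃ i, ev P (u i) ∉ U) : WU u e P U ≠ ⊤ := by
  classical
  obtain ⟨i, hi⟩ := h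
  obtain ⟨j, hj⟩ := exists_X_notMem hP
  intro htop
  let b : W (k := k) e := ⟨Pi.single i ((X j)^(e i)), by
    intro l
    by_cases hl : l = i
    · subst hl
      rw [Pi.single_eq_same]
      exact isHomogeneous_X_pow _ _
    · rw [Pi.single_eq_of_ne hl]
      exact isHomogeneous_zero _ _ _⟩
  have hb : b ∈ WU u e P U := by rw [htop]; trivial
  rw [mem_WU] at hb
  have hL : L u b.1 = ((X j)^(e i) : S k) • u i := by
    unfold L
    rw [Finset.sum_eq_single i]
    · simp [b]
    · intro l _ hl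
      simp [b, Pi.single_eq_of_ne hl]
    · intro h; exact absurd (Finset.mem_univ i) h
  rw [hL, ev_smul] at hb
  have hne : algebraMap (S k) (K P) ((X j)^(e i)) ≠ 0 := by
    rw [map_pow]
    apply pow_ne_zero
    intro h0
    rw [Ideal.algebraMap_residueField_eq_zero] at h0
    exact hj h0
  exact hi ((U.smul_mem_iff hne).mp hb)

theorem avoid {E : Type*} [AddCommGroup E] [Module ℂ E] {ι : Type*} [Finite ι]
    (p : ι → Submodule ℂ E) (h : ∀ i, p i ≠ ⊤) : ∃ x, ∀ i, x ∉ p i := by
  by_contra hcon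
  push Not at hcon
  have : ⋃ i, (p i : Set E) = Set.univ := by
    apply Set.eq_univ_of_forall
    intro x
    obtain ⟨i, hi⟩ := hcon x
    exact Set.mem_iUnion.mpr ⟨i, hi⟩
  obtain ⟨i, hi⟩ := Subspace.exists_eq_top_of_iUnion_eq_univ this
  exact h i hi

theorem exists_notMem_of_rank {M : ℕ} {P : Pt k} {u : Fin M → F k} {r : ℕ}
    (hr : r + 1 ≤ Module.finrank (K P) (Submodule.span (K P) (Set.range (fun i => ev P (u i)))))
    (U : Submodule (K P) (Fin (k+2) → K P)) (hU : Module.finrank (K P) U ≤ r) :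
    ∃ i, ev P (u i) ∉ U := by
  by_contra hcon
  push Not at hcon
  have h1 : Submodule.span (K P) (Set.range (fun i => ev P (u i))) ≤ U := by
    rw [Submodule.span_le]
    rintro _ ⟨i, rfl⟩
    exact hcon i
  have h2 := Submodule.finrank_mono h1
  omega

theorem good_bot : Good (⊥ : Pt k) := Or.inl rfl

/-- The step lemma: a generic homogeneous combination is basic in codimension one. -/
theorem step {M s : ℕ} (τ : Fin s → F k) (hτ : ∀ P, Good P → Indep P τ)
    (u : Fin (M+1) → F k) (e : Fin (M+1) → ℕ)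
    (he : e (Fin.last M) = 0)
    (hrank : ∀ P : Pt k, Good P →
      s + 2 ≤ Module.finrank (K P) (Submodule.span (K P) (Set.range (fun i => ev P (u i))))) :
    ∃ b : Fin (M+1) → S k, (∀ i, (b i).IsHomogeneous (e i)) ∧ b (Fin.last M) ≠ 0 ∧
      ∀ P, Good P → Indep P (Fin.snoc τ (∑ i, b i • u i) : Fin (s+1) → F k) := by
  classical
  -- the subspace of coefficient vectors with vanishing last coefficient
  let Z : Submodule ℂ (W (k := k) e) :=
    { carrier := {b | b.1 (Fin.last M) = 0}
      add_mem' := fun {a b} ha hb => by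
        simp only [Set.mem_ofPred_eq] at ha hb ⊢
        rw [Submodule.coe_add, Pi.add_apply, ha, hb, add_zero]
      zero_mem' := rfl
      smul_mem' := fun c b hb => by
        simp only [Set.mem_ofPred_eq] at hb ⊢
        rw [Submodule.coe_smul, Pi.smul_apply, hb, smul_zero] }
  have hZ : Z ≠ ⊤ := by
    intro htop
    let b : W (k := k) e := ⟨Pi.single (Fin.last M) 1, by
      intro l
      by_cases hl : l = Fin.last M
      · subst hl
        rw [Pi.single_eq_same, he]
        exact isHomogeneous_one _ _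
      · rw [Pi.single_eq_of_ne hl]
        exact isHomogeneous_zero _ _ _⟩
    have hb : b ∈ Z := by rw [htop]; trivial
    have hb' : b.1 (Fin.last M) = 0 := hb
    simp [b] at hb'
  -- step 1
  obtain ⟨b₁, hb₁⟩ := avoid (fun i : Fin 2 => if i = 0 then Z else WU u e ⊥ (T ⊥ τ)) (by
    intro i
    by_cases hi : i = 0
    · simp only [hi, if_true]; exact hZ
    · simp only [hi, if_false]
      apply WU_ne_top e good_bot
      exact exists_notMem_of_rank (r := s) (by have := hrank ⊥ good_bot; omega) _ (finrank_T_le _ _))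
  have hb₁Z : b₁ ∉ Z := by simpa using hb₁ 0
  have hb₁T : b₁ ∉ WU u e ⊥ (T ⊥ τ) := by simpa using hb₁ 1
  rw [mem_WU] at hb₁T
  set σ₁ : F k := L u b₁.1 with hσ₁
  have hI₁ : Indep (⊥ : Pt k) (Fin.snoc τ σ₁ : Fin (s+1) → F k) :=
    (indep_snoc _ _ _).mpr ⟨hτ _ good_bot, hb₁T⟩
  have hfin₁ := finite_bad hI₁
  -- step 2
  have hfinT₁ : Finite {P : Pt k | Good P ∧ ¬ Indep P (Fin.snoc τ σ₁ : Fin (s+1) → F k)} :=
    hfin₁.to_subtype
  obtain ⟨b₂, hb₂⟩ := avoid (ι := Option {P : Pt k | Good P ∧
      ¬ Indep P (Fin.snoc τ σ₁ : Fin (s+1) → F k)})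
    (fun o => match o with
      | none => WU u e ⊥ (T ⊥ (Fin.snoc τ σ₁ : Fin (s+1) → F k))
      | some P => WU u e P.1 (T P.1 τ)) (by
    intro o
    match o with
    | none =>
      apply WU_ne_top e good_bot
      exact exists_notMem_of_rank (r := s+1) (hrank ⊥ good_bot) _ (finrank_T_le _ _)
    | some P =>
      apply WU_ne_top e P.2.1
      exact exists_notMem_of_rank (r := s) (by have := hrank P.1 P.2.1; omega) _
        (finrank_T_le _ _))
  set w : F k := L u b₂.1 with hw
  have hb₂bot : ev ⊥ w ∉ T ⊥ (Fin.snoc τ σ₁ : Fin (s+1) → F k) := hb₂ none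
  have hb₂P : ∀ P : Pt k, Good P → ¬ Indep P (Fin.snoc τ σ₁ : Fin (s+1) → F k) →
      ev P w ∉ T P τ := fun P hP hI => hb₂ (some ⟨P, hP, hI⟩)
  have hI₂ : Indep (⊥ : Pt k) (Fin.snoc (Fin.snoc τ σ₁ : Fin (s+1) → F k) w : Fin (s+2) → F k) :=
    (indep_snoc _ _ _).mpr ⟨hI₁, hb₂bot⟩
  have hfin₂ := finite_bad hI₂
  -- step 3
  let bad : Set ℂ := {t | b₁.1 (Fin.last M) + t • b₂.1 (Fin.last M) = 0} ∪
    ⋃ P ∈ {P : Pt k | Good P ∧
      ¬ Indep P (Fin.snoc (Fin.snoc τ σ₁ : Fin (s+1) → F k) w : Fin (s+2) → F k)},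
      {t : ℂ | ev P (σ₁ + (C t : S k) • w) ∈ T P τ}
  have hbad : bad.Finite := by
    apply Set.Finite.union
    · apply Set.Subsingleton.finite
      intro t ht t' ht'
      simp only [Set.mem_ofPred_eq] at ht ht'
      by_contra hne
      have h1 : (t - t') • b₂.1 (Fin.last M) = 0 := by
        rw [sub_smul]
        have := ht.trans ht'.symm
        have h2 := add_left_cancel this
        rw [h2, sub_self]
      rcases smul_eq_zero.mp h1 with h2 | h2
      · exact hne (sub_eq_zero.mp h2)
      · rw [h2, smul_zero, add_zero] at ht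
        exact hb₁Z ht
    · apply hfin₂.biUnion
      rintro P ⟨hP, hI⟩
      apply Set.Subsingleton.finite
      intro t ht t' ht'
      simp only [Set.mem_ofPred_eq] at ht ht'
      by_contra hne
      rw [map_add, ev_smul] at ht ht'
      have hC : (algebraMap (S k) (K P)) (C t) - (algebraMap (S k) (K P)) (C t') ≠ 0 := by
        rw [← map_sub, ← map_sub]
        intro h0
        rw [Ideal.algebraMap_residueField_eq_zero] at h0
        have hu : IsUnit (C (t - t') : S k) := (IsUnit.mk0 _ (sub_ne_zero.mpr hne)).map C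
        exact P.isPrime.ne_top (Ideal.eq_top_of_isUnit_mem _ h0 hu)
      have h1 : ((algebraMap (S k) (K P)) (C t) - (algebraMap (S k) (K P)) (C t')) • ev P w
          ∈ T P τ := by
        have := (T P τ).sub_mem ht ht'
        rw [sub_smul]
        convert this using 1
        abel
      have hwT : ev P w ∈ T P τ := ((T P τ).smul_mem_iff hC).mp h1
      have hσT : ev P σ₁ ∈ T P τ := by
        have := (T P τ).sub_mem ht ((T P τ).smul_mem ((algebraMap (S k) (K P)) (C t)) hwT)
        rwa [add_sub_cancel_right] at this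
      by_cases hI1 : Indep P (Fin.snoc τ σ₁ : Fin (s+1) → F k)
      · exact ((indep_snoc _ _ _).mp hI1).2 hσT
      · exact hb₂P P hP hI1 hwT
  obtain ⟨t, ht⟩ := hbad.exists_notMem
  have ht1 : b₁.1 (Fin.last M) + t • b₂.1 (Fin.last M) ≠ 0 := fun h => ht (Or.inl h)
  have ht2 : ∀ P : Pt k, Good P →
      ¬ Indep P (Fin.snoc (Fin.snoc τ σ₁ : Fin (s+1) → F k) w : Fin (s+2) → F k) →
      ev P (σ₁ + (C t : S k) • w) ∉ T P τ := by
    intro P hP hI h
    apply ht
    right
    exact Set.mem_biUnion (show P ∈ {P : Pt k | Good P ∧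
      ¬ Indep P (Fin.snoc (Fin.snoc τ σ₁ : Fin (s+1) → F k) w : Fin (s+2) → F k)} from ⟨hP, hI⟩) h
  refine ⟨b₁.1 + t • b₂.1, ?_, ?_, ?_⟩
  · exact (b₁ + t • b₂).2
  · rw [Pi.add_apply, Pi.smul_apply]; exact ht1
  · intro P hP
    have hL : ∑ i, (b₁.1 + t • b₂.1) i • u i = σ₁ + (C t : S k) • w := by
      have : L u (b₁.1 + t • b₂.1) = σ₁ + (C t : S k) • w := by
        rw [L_add, L_smul]
      exact this
    rw [hL, indep_snoc]
    refine ⟨hτ P hP, ?_⟩
    by_cases hI : Indep P (Fin.snoc (Fin.snoc τ σ₁ : Fin (s+1) → F k) w : Fin (s+2) → F k)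
    · -- independent triple: no t is bad
      intro hmem
      rw [map_add, ev_smul] at hmem
      obtain ⟨hI1, hwn⟩ := (indep_snoc _ _ _).mp hI
      obtain ⟨-, hσn⟩ := (indep_snoc _ _ _).mp hI1
      by_cases h0 : (algebraMap (S k) (K P)) (C t) = 0
      · rw [h0, zero_smul, add_zero] at hmem
        exact hσn hmem
      · apply hwn
        have hle : T P τ ≤ T P (Fin.snoc τ σ₁ : Fin (s+1) → F k) := by
          unfold T
          rw [Submodule.span_le]
          rintro _ ⟨i, rfl⟩
          apply Submodule.subset_span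
          exact ⟨i.castSucc, by simp⟩
        have hσ : ev P σ₁ ∈ T P (Fin.snoc τ σ₁ : Fin (s+1) → F k) := by
          apply Submodule.subset_span
          exact ⟨Fin.last s, by simp⟩
        have h3 := (T P (Fin.snoc τ σ₁ : Fin (s+1) → F k)).sub_mem (hle hmem) hσ
        rw [add_sub_cancel_left] at h3
        exact (Submodule.smul_mem_iff _ h0).mp h3
    · exact ht2 P hP hI

end Pool.Agent.H70.Tame
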