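import Pool.Agent.H70.Tame2

open MvPolynomial

namespace Pool.Agent.H70.Tame

variable {k : ℕ}

theorem rank_initial {P : Pt k} {m : ℕ} (ρ : Fin m → F k) (r : ℕ)
    (hr : r ≤ Module.finrank (K P) (Submodule.span (K P) (Set.range (fun i => ev P (ρ i)))))
    (M : ℕ) (hM : M ≤ m) :
    r ≤ Module.finrank (K P) (Submodule.span (K P)
      (Set.range (fun i : Fin M => ev P (ρ (Fin.castLE hM i))))) + (m - M) := by
  have h1 : Submodule.span (K P) (Set.range (fun i => ev P (ρ i))) ≤
      Submodule.span (K P) (Set.range (fun i : Fin M => ev P (ρ (Fin.castLE hM i)))) ⊔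
      Submodule.span (K P) (Set.range (fun i : Fin (m - M) =>
        ev P (ρ ⟨M + i, by have := i.2; omega⟩))) := by
    rw [Submodule.span_le]
    rintro _ ⟨i, rfl⟩
    by_cases hi : i.val < M
    · apply Submodule.mem_sup_left
      apply Submodule.subset_span
      exact ⟨⟨i, hi⟩, rfl⟩
    · apply Submodule.mem_sup_right
      apply Submodule.subset_span
      refine ⟨⟨i - M, by have := i.2; omega⟩, ?_⟩
      simp only
      congr 3
      omega
  have h2 := Submodule.finrank_mono h1
  have h3 := Submodule.finrank_add_le_finrank_add_finrank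
    (Submodule.span (K P) (Set.range (fun i : Fin M => ev P (ρ (Fin.castLE hM i)))))
    (Submodule.span (K P) (Set.range (fun i : Fin (m - M) =>
        ev P (ρ ⟨M + i, by have := i.2; omega⟩))))
  have h4 : Module.finrank (K P) (Submodule.span (K P) (Set.range (fun i : Fin (m - M) =>
        ev P (ρ ⟨M + i, by have := i.2; omega⟩)))) ≤ m - M := by
    have := finrank_range_le_card (R := K P) (fun i : Fin (m - M) =>
        ev P (ρ ⟨M + i, by have := i.2; omega⟩))
    simpa [Set.finrank] using this
  omega

theorem chain (m₀ : ℕ) (ρ : Fin (m₀ + k) → F k) (dg : Fin (m₀ + k) → ℕ)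
    (hrank : ∀ P : Pt k, Good P →
      k + 1 ≤ Module.finrank (K P) (Submodule.span (K P) (Set.range (fun i => ev P (ρ i))))) :
    ∀ s, ∀ hs : s ≤ k, ∃ (σ : Fin s → F k) (b : Fin s → Fin (m₀ + k) → S k),
      (∀ j, σ j = ∑ i, b j i • ρ i) ∧
      (∀ (j : Fin s) (i : Fin (m₀ + k)), m₀ + j.val < i.val → b j i = 0) ∧
      (∀ (j : Fin s) (i : Fin (m₀ + k)),
        (b j i).IsHomogeneous (dg ⟨m₀ + j, by have := j.2; omega⟩ - dg i)) ∧
      (∀ j : Fin s, b j ⟨m₀ + j, by have := j.2; omega⟩ ≠ 0) ∧
      ∀ P, Good P → Indep P σ := by
  intro s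
  induction s with
  | zero =>
    intro hs
    refine ⟨Fin.elim0, Fin.elim0, fun j => j.elim0, fun j => j.elim0, fun j => j.elim0,
      fun j => j.elim0, ?_⟩
    intro P _
    exact linearIndependent_empty_type
  | succ s ih =>
    intro hs
    obtain ⟨σ, b, h1, h2, h3, h4, h5⟩ := ih (by omega)
    have hM : m₀ + s + 1 ≤ m₀ + k := by omega
    obtain ⟨b', g1, g2, g3⟩ := step σ h5 (fun i : Fin (m₀ + s + 1) => ρ (Fin.castLE hM i))
      (fun i => dg ⟨m₀ + s, by omega⟩ - dg (Fin.castLE hM i)) (by
        have : (Fin.castLE hM (Fin.last (m₀ + s))) = ⟨m₀ + s, by omega⟩ := by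
          apply Fin.ext; simp
        simp only [this, Nat.sub_self]) (by
        intro P hP
        have := rank_initial ρ (k+1) (hrank P hP) (m₀ + s + 1) hM
        omega)
    let bn : Fin (m₀ + k) → S k := fun i => if h : i.val < m₀ + s + 1 then b' ⟨i, h⟩ else 0
    have hbn : ∀ i : Fin (m₀ + s + 1), bn (Fin.castLE hM i) = b' i := by
      intro i
      have : (Fin.castLE hM i).val < m₀ + s + 1 := i.2
      simp only [bn, dif_pos this]
      rfl
    have hsum : ∑ i, bn i • ρ i = ∑ i, b' i • ρ (Fin.castLE hM i) := by
      have e1 : ∑ i, b' i • ρ (Fin.castLE hM i) =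
          ∑ i ∈ (Finset.univ.map (Fin.castLEEmb hM)), bn i • ρ i := by
        rw [Finset.sum_map]
        apply Finset.sum_congr rfl
        intro i _
        rw [show (Fin.castLEEmb hM) i = Fin.castLE hM i from rfl, hbn]
      rw [e1]
      symm
      apply Finset.sum_subset (Finset.subset_univ _)
      intro i _ hi
      have : ¬ i.val < m₀ + s + 1 := by
        intro h
        apply hi
        rw [Finset.mem_map]
        exact ⟨⟨i, h⟩, Finset.mem_univ _, rfl⟩
      simp only [bn, dif_neg this, zero_smul]
    refine ⟨Fin.snoc σ (∑ i, b' i • ρ (Fin.castLE hM i)), Fin.snoc b bn, ?_, ?_, ?_, ?_, ?_⟩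
    · intro j
      refine Fin.lastCases ?_ (fun j => ?_) j
      · simp only [Fin.snoc_last]; exact hsum.symm
      · simp only [Fin.snoc_castSucc]; exact h1 j
    · intro j
      refine Fin.lastCases ?_ (fun j => ?_) j
      · intro i hi
        simp only [Fin.snoc_last]
        simp only [Fin.val_last] at hi
        have : ¬ i.val < m₀ + s + 1 := by omega
        simp only [bn, dif_neg this]
      · intro i hi
        simp only [Fin.snoc_castSucc]
        exact h2 j i hi
    · intro j
      refine Fin.lastCases ?_ (fun j => ?_) j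
      · intro i
        simp only [Fin.snoc_last]
        by_cases h : i.val < m₀ + s + 1
        · have := g1 ⟨i, h⟩
          simp only [bn, dif_pos h]
          exact this
        · simp only [bn, dif_neg h]
          exact isHomogeneous_zero _ _ _
      · intro i
        simp only [Fin.snoc_castSucc]
        exact h3 j i
    · intro j
      refine Fin.lastCases ?_ (fun j => ?_) j
      · simp only [Fin.snoc_last]
        have h : m₀ + s < m₀ + s + 1 := by omega
        show bn ⟨m₀ + s, _⟩ ≠ 0
        simp only [bn, dif_pos h]
        exact g2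
      · simp only [Fin.snoc_castSucc]
        exact h4 j
    · exact g3

theorem eq_C_of_homogeneous_zero {p : S k} (h : p.IsHomogeneous 0) : ∃ c, p = C c := by
  by_cases h0 : p = 0
  · exact ⟨0, by rw [h0, C_0]⟩
  · exact ⟨p.coeff 0, totalDegree_eq_zero_iff_eq_C.mp (h.totalDegree h0)⟩

/-- Replacing the last `k` generators by generic combinations. -/
theorem assemble (m₀ : ℕ) (ρ : Fin (m₀ + k) → F k) (dg : Fin (m₀ + k) → ℕ)
    (hdg : ∀ i j, (ρ i j).IsHomogeneous (dg i)) (hmono : Monotone dg)
    (hrank : ∀ P : Pt k, Good P →
      k + 1 ≤ Module.finrank (K P) (Submodule.span (K P) (Set.range (fun i => ev P (ρ i))))) :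
    ∃ σ : Fin k → F k, (∀ j l, (σ j l).IsHomogeneous (dg (Fin.natAdd m₀ j))) ∧
      (∀ P, Good P → Indep P σ) ∧
      Submodule.span (S k) (Set.range (Fin.append (fun i => ρ (Fin.castAdd k i)) σ)) =
        Submodule.span (S k) (Set.range ρ) := by
  obtain ⟨σ, b, h1, h2, h3, h4, h5⟩ := chain m₀ ρ dg hrank k le_rfl
  refine ⟨σ, ?_, h5, ?_⟩
  · intro j l
    rw [h1 j, Finset.sum_apply]
    apply IsHomogeneous.sum
    intro i _
    rw [Pi.smul_apply, smul_eq_mul]
    by_cases hi : m₀ + j.val < i.val
    · rw [h2 j i hi, zero_mul]; exact isHomogeneous_zero _ _ _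
    · have hle : dg i ≤ dg (Fin.natAdd m₀ j) := hmono (by
        rw [Fin.le_def, Fin.val_natAdd]; omega)
      have := (h3 j i).mul (hdg i l)
      have hnat : (⟨m₀ + j, by have := j.2; omega⟩ : Fin (m₀ + k)) = Fin.natAdd m₀ j := by
        apply Fin.ext; simp
      rw [hnat, Nat.sub_add_cancel hle] at this
      exact this
  · apply le_antisymm
    · rw [Submodule.span_le]
      rintro _ ⟨i, rfl⟩
      refine Fin.addCases (fun i => ?_) (fun j => ?_) i
      · rw [Fin.append_left]
        exact Submodule.subset_span ⟨_, rfl⟩
      · rw [Fin.append_right, h1 j]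
        exact Submodule.sum_mem _ (fun i _ =>
          Submodule.smul_mem _ _ (Submodule.subset_span ⟨i, rfl⟩))
    · rw [Submodule.span_le]
      have key : ∀ n : ℕ, ∀ i : Fin (m₀ + k), i.val = n → ρ i ∈ Submodule.span (S k)
          (Set.range (Fin.append (fun i => ρ (Fin.castAdd k i)) σ)) := by
        intro n
        induction n using Nat.strong_induction_on with
        | _ n ih =>
          intro i hi
          by_cases hlt : i.val < m₀
          · apply Submodule.subset_span
            refine ⟨Fin.castAdd k ⟨i, hlt⟩, ?_⟩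
            rw [Fin.append_left]
            rfl
          · have hj : i.val - m₀ < k := by have := i.2; omega
            set j : Fin k := ⟨i.val - m₀, hj⟩ with hjdef
            have hij : i = ⟨m₀ + j, by have := j.2; omega⟩ := by
              apply Fin.ext; simp only [hjdef]; omega
            have hhom := h3 j i
            have hne := h4 j
            rw [← hij] at hne hhom
            rw [Nat.sub_self] at hhom
            obtain ⟨c, hc⟩ := eq_C_of_homogeneous_zero hhom
            have hc0 : c ≠ 0 := by
              intro h0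
              rw [h0, C_0] at hc
              exact hne hc
            have hσ : σ j ∈ Submodule.span (S k)
                (Set.range (Fin.append (fun i => ρ (Fin.castAdd k i)) σ)) := by
              apply Submodule.subset_span
              exact ⟨Fin.natAdd m₀ j, by rw [Fin.append_right]⟩
            have hrest : ∑ i' ∈ Finset.univ.erase i, b j i' • ρ i' ∈ Submodule.span (S k)
                (Set.range (Fin.append (fun i => ρ (Fin.castAdd k i)) σ)) := by
              apply Submodule.sum_mem
              intro i' hi'
              have hne' : i' ≠ i := Finset.ne_of_mem_erase hi'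
              by_cases hlt' : m₀ + j.val < i'.val
              · rw [h2 j i' hlt', zero_smul]; exact Submodule.zero_mem _
              · apply Submodule.smul_mem
                have hv : i'.val ≠ i.val := fun h => hne' (Fin.ext h)
                have hjv : m₀ + j.val = i.val := by simp only [hjdef]; omega
                exact ih i'.val (by omega) i' rfl
            have heq : (C c : S k) • ρ i = σ j - ∑ i' ∈ Finset.univ.erase i, b j i' • ρ i' := by
              rw [h1 j, ← Finset.add_sum_erase _ _ (Finset.mem_univ i), add_sub_cancel_right, hc]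
            have hmem : (C c : S k) • ρ i ∈ Submodule.span (S k)
                (Set.range (Fin.append (fun i => ρ (Fin.castAdd k i)) σ)) := by
              rw [heq]; exact Submodule.sub_mem _ hσ hrest
            have h6 := Submodule.smul_mem _ (C c⁻¹ : S k) hmem
            rw [smul_smul, ← C_mul, inv_mul_cancel₀ hc0, C_1, one_smul] at h6
            exact h6
      rintro _ ⟨i, rfl⟩
      exact key i.val i rfl

end Pool.Agent.H70.Tame
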