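import Pool.Agent.H70.Tame3

open MvPolynomial

namespace Pool.Agent.H70.Tame

variable {k : ℕ}

/-- The point of a prime element. -/
noncomputable def ptOf (p : S k) (hp : Prime p) : Pt k :=
  ⟨Ideal.span {p}, (Ideal.span_singleton_prime hp.ne_zero).mpr hp⟩

theorem good_ptOf (p : S k) (hp : Prime p) : Good (ptOf p hp) := Or.inr ⟨p, hp, rfl⟩

theorem algebraMap_ptOf {p : S k} (hp : Prime p) (a : S k) :
    algebraMap (S k) (K (ptOf p hp)) a = 0 ↔ p ∣ a := by
  rw [Ideal.algebraMap_residueField_eq_zero]
  exact Ideal.mem_span_singleton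

/-- Independence in codimension at most one implies saturation. -/
theorem saturated {s : ℕ} {σ : Fin s → F k} (h : ∀ P, Good P → Indep P σ) (a : S k) :
    a ≠ 0 → ∀ v : F k, a • v ∈ Submodule.span (S k) (Set.range σ) →
      v ∈ Submodule.span (S k) (Set.range σ) := by
  induction a using UniqueFactorizationMonoid.induction_on_prime with
  | h₁ => intro h0; exact absurd rfl h0
  | h₂ x hx =>
    intro _ v hv
    obtain ⟨u, rfl⟩ := hx
    have := Submodule.smul_mem _ ((u⁻¹ : (S k)ˣ) : S k) hv
    rwa [smul_smul, Units.inv_mul, one_smul] at this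
  | h₃ a p ha hp ih =>
    intro _ v hv
    apply ih ha
    obtain ⟨c, hc⟩ := (Submodule.mem_span_range_iff_exists_fun _).mp hv
    have h1 : ∑ i, algebraMap (S k) (K (ptOf p hp)) (c i) • ev (ptOf p hp) (σ i) = 0 := by
      have h2 := congrArg (ev (ptOf p hp)) hc
      rw [map_sum, ev_smul, map_mul, (algebraMap_ptOf hp p).mpr dvd_rfl, zero_mul,
        zero_smul] at h2
      rw [← h2]
      exact Finset.sum_congr rfl (fun i _ => (ev_smul _ _ _).symm)
    have h2 := Fintype.linearIndependent_iff.mp (h _ (good_ptOf p hp)) _ h1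
    have h3 : ∀ i, p ∣ c i := fun i => (algebraMap_ptOf hp _).mp (h2 i)
    choose c' hc' using h3
    apply (Submodule.mem_span_range_iff_exists_fun _).mpr
    refine ⟨c', ?_⟩
    have h4 : p • ∑ i, c' i • σ i = p • (a • v) := by
      rw [smul_smul, ← hc, Finset.smul_sum]
      apply Finset.sum_congr rfl
      intro i _
      rw [hc' i, mul_smul]
    exact smul_right_injective (F k) hp.ne_zero h4

theorem pderiv_eq_zero_of_dvd {p : S k} {j : Fin (k+2)} (h : p ∣ pderiv j p) :
    pderiv j p = 0 := by
  by_contra hne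
  have h1 := totalDegree_le_of_dvd_of_isDomain h hne
  have h2 : (pderiv j p).totalDegree < p.totalDegree := by
    obtain ⟨m, hm, hm2⟩ := Finset.exists_mem_eq_sup (pderiv j p).support
      (support_nonempty.mpr hne) (fun s => s.sum fun _ e => e)
    have h3 : (pderiv j p).totalDegree = m.sum fun _ e => e := hm2
    have h4 : m + Finsupp.single j 1 ∈ p.support := by
      rw [mem_support_iff] at hm ⊢
      intro h0
      rw [coeff_pderiv, h0, zero_mul] at hm
      exact hm rfl
    have h5 := le_totalDegree h4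
    rw [h3]
    refine lt_of_lt_of_le ?_ h5
    rw [Finsupp.sum_add_index' (fun _ => rfl) (fun _ _ _ => rfl), Finsupp.sum_single_index rfl]
    omega
  omega

theorem eq_C_of_pderiv {p : S k} (h : ∀ j, pderiv j p = 0) : p = C (p.coeff 0) := by
  ext m
  rw [coeff_C]
  by_cases hm : 0 = m
  · rw [if_pos hm, ← hm]
  · rw [if_neg hm]
    have : ∃ j, m j ≠ 0 := by
      by_contra hcon
      push Not at hcon
      exact hm (Finsupp.ext (fun j => (hcon j).symm))
    obtain ⟨j, hj⟩ := this
    have h1 := coeff_pderiv (i := j) p (m - Finsupp.single j 1)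
    rw [h j, coeff_zero] at h1
    have h2 : m - Finsupp.single j 1 + Finsupp.single j 1 = m := by
      apply tsub_add_cancel_of_le
      rw [Finsupp.single_le_iff]
      omega
    rw [h2] at h1
    rcases mul_eq_zero.mp h1.symm with h3 | h3
    · exact h3
    · exfalso
      exact Nat.cast_add_one_ne_zero _ h3

theorem exists_pderiv_notMem {f : S k} {d : ℕ} (hf : f.IsHomogeneous d) (hd : 1 ≤ d)
    (hsq : Squarefree f) {P : Pt k} (hP : Good P) : ∃ j, pderiv j f ∉ P.asIdeal := by
  by_contra hcon
  push Not at hcon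
  have heuler := hf.sum_X_mul_pderiv
  have hdu : IsUnit ((d : S k)) := by
    have : ((d : S k)) = C (d : ℂ) := by simp
    rw [this]
    exact (IsUnit.mk0 _ (by exact_mod_cast (by omega : d ≠ 0))).map C
  rcases hP with hP | ⟨p, hp, hP⟩
  · have h0 : ∀ j, pderiv j f = 0 := by
      intro j
      have := hcon j
      rwa [hP, Ideal.mem_bot] at this
    have h1 : f = 0 := by
      simp only [h0, mul_zero, Finset.sum_const_zero, nsmul_eq_mul] at heuler
      exact (hdu.mul_right_eq_zero).mp heuler.symm
    rw [h1] at hsq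
    exact not_squarefree_zero hsq
  · have hdvd : ∀ j, p ∣ pderiv j f := by
      intro j
      have := hcon j
      rwa [hP, Ideal.mem_span_singleton] at this
    have h1 : p ∣ f := by
      have h2 : p ∣ d • f := by
        rw [← heuler]
        exact Finset.dvd_sum (fun j _ => (hdvd j).mul_left _)
      rw [nsmul_eq_mul] at h2
      exact (hdu.dvd_mul_left).mp h2
    obtain ⟨g, hg⟩ := h1
    have h3 : ¬ p ∣ g := by
      rintro ⟨g', hg'⟩
      have : p * p ∣ f := ⟨g', by rw [hg, hg']; ring⟩
      exact hp.not_isUnit (hsq p this)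
    have h4 : ∀ j, pderiv j p = 0 := by
      intro j
      apply pderiv_eq_zero_of_dvd
      have h5 := hdvd j
      rw [hg, pderiv_mul] at h5
      have h6 : p ∣ pderiv j p * g := (dvd_add_left (dvd_mul_right p _)).mp h5
      exact (hp.dvd_or_dvd h6).resolve_right h3
    have h5 := eq_C_of_pderiv h4
    by_cases h6 : p.coeff 0 = 0
    · rw [h6, C_0] at h5
      exact hp.ne_zero h5
    · apply hp.not_isUnit
      rw [h5]
      exact (IsUnit.mk0 _ h6).map C

/-- Jacobian syzygies of `f`. -/
def jacSyz (f : S k) : Submodule (S k) (F k) where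
  carrier := {ρ | ∑ j, ρ j * pderiv j f = 0}
  add_mem' := fun {a b} ha hb => by
    simp only [Set.mem_ofPred_eq] at ha hb ⊢
    simp only [Pi.add_apply, add_mul, Finset.sum_add_distrib, ha, hb, add_zero]
  zero_mem' := by simp
  smul_mem' := fun c a ha => by
    simp only [Set.mem_ofPred_eq] at ha ⊢
    simp only [Pi.smul_apply, smul_eq_mul, mul_assoc, ← Finset.mul_sum, ha, mul_zero]

theorem mem_jacSyz {f : S k} {ρ : F k} : ρ ∈ jacSyz f ↔ ∑ j, ρ j * pderiv j f = 0 := Iff.rfl

/-- Koszul syzygies show that the rank at each good point is at least `k + 1`. -/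
theorem rank_jacSyz {f : S k} {d : ℕ} (hf : f.IsHomogeneous d) (hd : 1 ≤ d)
    (hsq : Squarefree f) {m : ℕ} {ρ : Fin m → F k}
    (hρ : Submodule.span (S k) (Set.range ρ) = jacSyz f) {P : Pt k} (hP : Good P) :
    k + 1 ≤ Module.finrank (K P) (Submodule.span (K P) (Set.range (fun i => ev P (ρ i)))) := by
  classical
  obtain ⟨j₀, hj₀⟩ := exists_pderiv_notMem hf hd hsq hP
  -- image of the syzygies lies in the span
  have h1 : ∀ v ∈ jacSyz f, ev P v ∈ Submodule.span (K P) (Set.range (fun i => ev P (ρ i))) := by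
    intro v hv
    rw [← hρ] at hv
    obtain ⟨c, hc⟩ := (Submodule.mem_span_range_iff_exists_fun _).mp hv
    rw [← hc, map_sum]
    apply Submodule.sum_mem
    intro i _
    rw [ev_smul]
    exact Submodule.smul_mem _ _ (Submodule.subset_span ⟨i, rfl⟩)
  -- Koszul syzygies
  let κ : Fin (k+1) → F k := fun i =>
    Pi.single (j₀.succAbove i) (pderiv j₀ f) - Pi.single j₀ (pderiv (j₀.succAbove i) f)
  have hκ : ∀ i, κ i ∈ jacSyz f := by
    intro i
    rw [mem_jacSyz]
    simp only [κ, Pi.sub_apply, sub_mul, Finset.sum_sub_distrib]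
    rw [Finset.sum_eq_single (j₀.succAbove i), Finset.sum_eq_single j₀]
    · rw [Pi.single_eq_same, Pi.single_eq_same]; ring
    · intro l _ hl; rw [Pi.single_eq_of_ne hl, zero_mul]
    · intro h; exact absurd (Finset.mem_univ _) h
    · intro l _ hl; rw [Pi.single_eq_of_ne hl, zero_mul]
    · intro h; exact absurd (Finset.mem_univ _) h
  have hli : LinearIndependent (K P) (fun i => ev P (κ i)) := by
    rw [Fintype.linearIndependent_iff]
    intro g hg i
    have h2 := congrFun hg (j₀.succAbove i)
    rw [Finset.sum_apply, Finset.sum_eq_single i] at h2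
    · rw [Pi.smul_apply, ev_apply] at h2
      simp only [κ, Pi.sub_apply, Pi.single_eq_same, Pi.zero_apply, smul_eq_mul] at h2
      rw [Pi.single_eq_of_ne (Fin.succAbove_ne j₀ i), sub_zero] at h2
      rcases mul_eq_zero.mp h2 with h3 | h3
      · exact h3
      · rw [Ideal.algebraMap_residueField_eq_zero] at h3
        exact absurd h3 hj₀
    · intro l _ hl
      rw [Pi.smul_apply, ev_apply]
      simp only [κ, Pi.sub_apply]
      rw [Pi.single_eq_of_ne (fun h => hl (Fin.succAbove_right_injective h).symm),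
        Pi.single_eq_of_ne (Fin.succAbove_ne j₀ i), sub_zero, map_zero, smul_zero]
    · intro h; exact absurd (Finset.mem_univ _) h
  have h3 : Submodule.span (K P) (Set.range (fun i => ev P (κ i))) ≤
      Submodule.span (K P) (Set.range (fun i => ev P (ρ i))) := by
    rw [Submodule.span_le]
    rintro _ ⟨i, rfl⟩
    exact h1 _ (hκ i)
  have h4 := Submodule.finrank_mono h3
  rw [finrank_span_eq_card hli, Fintype.card_fin] at h4
  exact h4

end Pool.Agent.H70.Tame
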