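import Pool.Agent.H70.Tame4

open MvPolynomial

namespace Pool.Agent.H70.Tame

variable {k : ℕ}

/-- homogeneous component of a vector -/
noncomputable def hc (e : ℕ) (v : F k) : F k := fun j => homogeneousComponent e (v j)

theorem hc_hom (e : ℕ) (v : F k) (j : Fin (k+2)) : (hc e v j).IsHomogeneous e :=
  homogeneousComponent_isHomogeneous _ _

theorem sum_hc (v : F k) {N : ℕ} (hN : ∀ j, (v j).totalDegree < N) :
    ∑ e ∈ Finset.range N, hc e v = v := by
  funext j
  rw [Finset.sum_apply]
  conv_rhs => rw [← sum_homogeneousComponent (v j)]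
  symm
  apply Finset.sum_subset
  · intro e he
    rw [Finset.mem_range] at he ⊢
    have := hN j
    omega
  · intro e _ he
    rw [Finset.mem_range, not_lt] at he
    exact homogeneousComponent_eq_zero _ _ (by omega)

theorem exists_bound (v : F k) : ∃ N, ∀ j, (v j).totalDegree < N := by
  refine ⟨(Finset.univ.sup fun j => (v j).totalDegree) + 1, fun j => ?_⟩
  have := Finset.le_sup (f := fun j => (v j).totalDegree) (Finset.mem_univ j)
  omega

theorem hc_mem {f : S k} {d : ℕ} (hf : f.IsHomogeneous d) {v : F k} (hv : v ∈ jacSyz f) (e : ℕ) :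
    hc e v ∈ jacSyz f := by
  obtain ⟨N, hN⟩ := exists_bound v
  by_cases he : e < N
  · rw [mem_jacSyz] at hv ⊢
    have h1 : ∑ e' ∈ Finset.range N, ∑ j, hc e' v j * pderiv j f = 0 := by
      rw [Finset.sum_comm, ← hv]
      apply Finset.sum_congr rfl
      intro j _
      rw [← Finset.sum_mul]
      congr 1
      have := congrFun (sum_hc v hN) j
      rwa [Finset.sum_apply] at this
    have h2 : ∀ e', (∑ j, hc e' v j * pderiv j f).IsHomogeneous (e' + (d - 1)) := by
      intro e'
      apply IsHomogeneous.sum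
      intro j _
      exact (hc_hom e' v j).mul hf.pderiv
    have h3 := congrArg (homogeneousComponent (e + (d - 1))) h1
    rw [map_sum, map_zero, Finset.sum_eq_single e] at h3
    · rwa [homogeneousComponent_eq_self (h2 e)] at h3
    · intro e' _ hne
      rw [homogeneousComponent_of_mem (h2 e'), if_neg (by omega)]
    · intro h; exact absurd (Finset.mem_range.mpr he) h
  · have : hc e v = 0 := by
      funext j
      exact homogeneousComponent_eq_zero _ _ (by have := hN j; omega)
    rw [this]; exact Submodule.zero_mem _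

theorem exists_hom_gens {f : S k} {d : ℕ} (hf : f.IsHomogeneous d) :
    ∃ (m : ℕ) (ρ : Fin m → F k), (∀ i, ∃ e, ∀ j, (ρ i j).IsHomogeneous e) ∧
      Submodule.span (S k) (Set.range ρ) = jacSyz f := by
  classical
  obtain ⟨G, hG⟩ := (isNoetherian_def.mp (inferInstance : IsNoetherian (S k) (F k))) (jacSyz f)
  have hb : ∃ N, ∀ g ∈ G, ∀ j, (g j).totalDegree < N := by
    refine ⟨(G.sup fun g => (exists_bound g).choose) + 1, fun g hg j => ?_⟩
    have h1 := (exists_bound g).choose_spec j
    have h2 := Finset.le_sup (f := fun g => (exists_bound g).choose) hg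
    omega
  obtain ⟨N, hN⟩ := hb
  let ι := (↥G × Fin N)
  let E : Fin (Fintype.card ι) ≃ ι := (Fintype.equivFin ι).symm
  refine ⟨Fintype.card ι, fun i => hc (E i).2 (E i).1, fun i => ⟨_, fun j => hc_hom _ _ j⟩, ?_⟩
  have hGm : ∀ g ∈ G, g ∈ jacSyz f := by
    intro g hg
    rw [← hG]; exact Submodule.subset_span hg
  apply le_antisymm
  · rw [Submodule.span_le]
    rintro _ ⟨i, rfl⟩
    exact hc_mem hf (hGm _ (E i).1.2) _
  · rw [← hG, Submodule.span_le]
    intro g hg
    rw [← sum_hc g (hN g hg)]
    apply Submodule.sum_mem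
    intro e he
    apply Submodule.subset_span
    refine ⟨E.symm (⟨g, hg⟩, ⟨e, Finset.mem_range.mp he⟩), ?_⟩
    simp only [Equiv.apply_symm_apply]

/-- The matrix `M` with rows `x`, the given syzygies, and `ρ`. -/
noncomputable def tameMatrix (ρhat : Fin k → F k) (ρ : F k) :
    Matrix (Fin (k+2)) (Fin (k+2)) (S k) :=
  Matrix.of (Fin.cons (fun j => X j) (Fin.snoc ρhat ρ : Fin (k+1) → F k) : Fin (k+2) → F k)

theorem tameMatrix_zero (ρhat : Fin k → F k) (ρ : F k) (j : Fin (k+2)) :
    tameMatrix ρhat ρ 0 j = X j := rfl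

theorem tameMatrix_mid (ρhat : Fin k → F k) (ρ : F k) (i : Fin k) (j : Fin (k+2)) :
    tameMatrix ρhat ρ i.castSucc.succ j = ρhat i j := by
  show (Fin.cons (fun j => X j) (Fin.snoc ρhat ρ : Fin (k+1) → F k) : Fin (k+2) → F k)
    i.castSucc.succ j = _
  rw [Fin.cons_succ, Fin.snoc_castSucc]

theorem tameMatrix_last (ρhat : Fin k → F k) (ρ : F k) (j : Fin (k+2)) :
    tameMatrix ρhat ρ (Fin.last k).succ j = ρ j := by
  show (Fin.cons (fun j => X j) (Fin.snoc ρhat ρ : Fin (k+1) → F k) : Fin (k+2) → F k)
    (Fin.last k).succ j = _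
  rw [Fin.cons_succ, Fin.snoc_last]

theorem tameMatrix_update (ρhat : Fin k → F k) (ρ : F k) :
    tameMatrix ρhat ρ = (tameMatrix ρhat 0).updateRow (Fin.last k).succ ρ := by
  ext i j
  refine Fin.cases ?_ (fun i => ?_) i
  · rw [Matrix.updateRow_ne (Fin.succ_ne_zero _).symm]; rfl
  · refine Fin.lastCases ?_ (fun i => ?_) i
    · rw [Matrix.updateRow_self, tameMatrix_last]
    · rw [Matrix.updateRow_ne, tameMatrix_mid, tameMatrix_mid]
      intro h
      exact (Fin.castSucc_lt_last i).ne (Fin.succ_injective _ h)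

theorem det_add (ρhat : Fin k → F k) (a b : F k) :
    (tameMatrix ρhat (a + b)).det = (tameMatrix ρhat a).det + (tameMatrix ρhat b).det := by
  rw [tameMatrix_update, Matrix.det_updateRow_add, ← tameMatrix_update, ← tameMatrix_update]

theorem det_smul (ρhat : Fin k → F k) (c : S k) (a : F k) :
    (tameMatrix ρhat (c • a)).det = c * (tameMatrix ρhat a).det := by
  rw [tameMatrix_update, Matrix.det_updateRow_smul, ← tameMatrix_update]

/-- `f` divides the determinant. -/
theorem dvd_det {f : S k} {d : ℕ} (hf : f.IsHomogeneous d) (hd : 1 ≤ d) (hsq : Squarefree f)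
    {ρhat : Fin k → F k} (hρhat : ∀ i, ρhat i ∈ jacSyz f) {ρ : F k} (hρ : ρ ∈ jacSyz f) :
    f ∣ (tameMatrix ρhat ρ).det := by
  set M := tameMatrix ρhat ρ with hM
  have hmul : M.mulVec (fun j => pderiv j f) = Pi.single 0 ((d : S k) * f) := by
    funext i
    refine Fin.cases ?_ (fun i => ?_) i
    · rw [Pi.single_eq_same]
      have := hf.sum_X_mul_pderiv
      rw [nsmul_eq_mul] at this
      rw [← this]
      rfl
    · rw [Pi.single_eq_of_ne (Fin.succ_ne_zero _)]
      refine Fin.lastCases ?_ (fun i => ?_) i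
      · show ∑ j, M (Fin.last k).succ j * pderiv j f = 0
        simp only [hM, tameMatrix_last]
        exact hρ
      · show ∑ j, M i.castSucc.succ j * pderiv j f = 0
        simp only [hM, tameMatrix_mid]
        exact hρhat i
  have h1 : ∀ j, f ∣ M.det * pderiv j f := by
    intro j
    have h2 : M.adjugate.mulVec (M.mulVec (fun j => pderiv j f)) =
        M.det • (fun j => pderiv j f) := by
      rw [Matrix.mulVec_mulVec, Matrix.adjugate_mul, Matrix.smul_mulVec, Matrix.one_mulVec]
    rw [hmul] at h2
    have h3 := congrFun h2 j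
    rw [Pi.smul_apply, smul_eq_mul] at h3
    rw [← h3, Matrix.mulVec_single]
    simp only [Pi.smul_apply, MulOpposite.smul_eq_mul_unop, MulOpposite.unop_op, Matrix.col_apply]
    exact Dvd.intro_left _ (by ring : M.adjugate j 0 * (d : S k) * f = _)
  have hf0 : f ≠ 0 := hsq.ne_zero
  have h2 : ∀ p, Prime p → p ∣ f → p ∣ M.det := by
    intro p hp hpf
    obtain ⟨j, hj⟩ := exists_pderiv_notMem hf hd hsq (good_ptOf p hp)
    have h3 : ¬ p ∣ pderiv j f := fun h => hj (Ideal.mem_span_singleton.mpr h)
    exact (hp.dvd_or_dvd (hpf.trans (h1 j))).resolve_right h3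
  apply hsq.isRadical (UniqueFactorizationMonoid.factors f).card
  have h3 : (UniqueFactorizationMonoid.factors f).prod ∣
      M.det ^ (UniqueFactorizationMonoid.factors f).card := by
    have h4 := Multiset.prod_dvd_prod_of_dvd (S := UniqueFactorizationMonoid.factors f)
      (fun x => x) (fun _ => M.det) (fun p hp => h2 p
        (UniqueFactorizationMonoid.prime_of_factor p hp)
        (UniqueFactorizationMonoid.dvd_of_mem_factors hp))
    rwa [Multiset.map_id', Multiset.map_const', Multiset.prod_replicate] at h4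
  exact (UniqueFactorizationMonoid.factors_prod hf0).symm.dvd.trans h3

/-- A relation between the rows of the matrix. -/
theorem det_eq_zero_iff {f : S k} {d : ℕ} (hf : f.IsHomogeneous d) (hd : 1 ≤ d)
    (hsq : Squarefree f) {σ : Fin k → F k} (hσ : ∀ i, σ i ∈ jacSyz f)
    (hI : ∀ P, Good P → Indep P σ) {ρ : F k} (hρ : ρ ∈ jacSyz f) :
    (tameMatrix σ ρ).det = 0 ↔ ρ ∈ Submodule.span (S k) (Set.range σ) := by
  have hf0 : f ≠ 0 := hsq.ne_zero
  rw [← Matrix.exists_vecMul_eq_zero_iff]
  constructor
  · rintro ⟨w, hw0, hw⟩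
    have hrow : ∀ j, w 0 * X j + (∑ i : Fin k, w i.castSucc.succ * σ i j +
        w (Fin.last k).succ * ρ j) = 0 := by
      intro j
      have := congrFun hw j
      simp only [Matrix.vecMul, dotProduct, Pi.zero_apply] at this
      rw [Fin.sum_univ_succ, Fin.sum_univ_castSucc] at this
      simpa only [tameMatrix_zero, tameMatrix_mid, tameMatrix_last] using this
    have h0 : w 0 = 0 := by
      have h1 : ∑ j, (w 0 * X j + (∑ i : Fin k, w i.castSucc.succ * σ i j +
        w (Fin.last k).succ * ρ j)) * pderiv j f = 0 := by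
        simp only [hrow, zero_mul, Finset.sum_const_zero]
      have h2 : ∑ j, (w 0 * X j + (∑ i : Fin k, w i.castSucc.succ * σ i j +
        w (Fin.last k).succ * ρ j)) * pderiv j f =
        w 0 * ∑ j, X j * pderiv j f + (∑ i : Fin k, w i.castSucc.succ * ∑ j, σ i j * pderiv j f +
          w (Fin.last k).succ * ∑ j, ρ j * pderiv j f) := by
        simp only [add_mul, Finset.sum_add_distrib, Finset.mul_sum, Finset.sum_mul]
        rw [Finset.sum_comm (s := (Finset.univ : Finset (Fin k)))]
        simp only [mul_assoc]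
      rw [h2, mem_jacSyz.mp hρ] at h1
      simp only [mem_jacSyz.mp (hσ _)] at h1
      rw [hf.sum_X_mul_pderiv] at h1
      simp only [mul_zero, Finset.sum_const_zero, add_zero, nsmul_eq_mul] at h1
      rcases mul_eq_zero.mp h1 with h3 | h3
      · exact h3
      · rcases mul_eq_zero.mp h3 with h4 | h4
        · exfalso
          have : (d : S k) ≠ 0 := by exact_mod_cast (by omega : d ≠ 0)
          exact this h4
        · exact absurd h4 hf0
    have hrow' : ∑ i : Fin k, w i.castSucc.succ • σ i + w (Fin.last k).succ • ρ = 0 := by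
      funext j
      have := hrow j
      rw [h0, zero_mul, zero_add] at this
      rw [Pi.add_apply, Finset.sum_apply]
      exact this
    by_cases hγ : w (Fin.last k).succ = 0
    · exfalso
      rw [hγ, zero_smul, add_zero] at hrow'
      have hli := linearIndependent_of_bot (hI ⊥ good_bot)
      have h5 := Fintype.linearIndependent_iff.mp hli _ hrow'
      apply hw0
      funext i
      refine Fin.cases h0 (fun i => ?_) i
      refine Fin.lastCases hγ (fun i => ?_) i
      exact h5 i
    · apply saturated hI _ hγ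
      have : w (Fin.last k).succ • ρ = - ∑ i : Fin k, w i.castSucc.succ • σ i := by
        rw [eq_neg_iff_add_eq_zero, add_comm]; exact hrow'
      rw [this]
      apply Submodule.neg_mem
      exact Submodule.sum_mem _ (fun i _ =>
        Submodule.smul_mem _ _ (Submodule.subset_span ⟨i, rfl⟩))
  · intro h
    obtain ⟨c, hc⟩ := (Submodule.mem_span_range_iff_exists_fun _).mp h
    refine ⟨Fin.cons 0 (Fin.snoc c (-1) : Fin (k+1) → S k), ?_, ?_⟩
    · intro h0
      have := congrFun h0 (Fin.last k).succ
      rw [Fin.cons_succ, Fin.snoc_last] at this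
      simp at this
    · funext j
      simp only [Matrix.vecMul, dotProduct, Pi.zero_apply]
      rw [Fin.sum_univ_succ, Fin.sum_univ_castSucc]
      simp only [tameMatrix_mid, tameMatrix_last, Fin.cons_zero, Fin.cons_succ,
        Fin.snoc_castSucc, Fin.snoc_last]
      rw [← hc, Finset.sum_apply]
      simp

end Pool.Agent.H70.Tame
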